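import Pool.Agent.Lib.MP_a554a0_an.Saw

set_option autoImplicit false

open Matrix

namespace Pool.Agent.MP_a554a0

section Unital

variable {A : Type*} [CStarAlgebra A] [PartialOrder A] [StarOrderedRing A]

lemma star_mul_self_le_one_of_norm {x : A} (hx : ‖x‖ ≤ 1) : star x * x ≤ 1 := by
  apply (CStarAlgebra.norm_le_one_iff_of_nonneg (star x * x) (star_mul_self_nonneg x)).1
  rw [CStarRing.norm_star_mul_self]
  nlinarith [norm_nonneg x]

/-- column factorisation from the scalar one -/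
lemma douglas_col (hD : HasDouglas A) {ρ : Type*} [DecidableEq ρ] (s : Finset ρ) :
    ∀ (b : A) (t : ρ → A), 0 ≤ star b * b - ∑ i ∈ s, star (t i) * t i →
      ∃ Y : ρ → A, (∀ i ∈ s, t i = Y i * b) ∧ 0 ≤ 1 - ∑ i ∈ s, star (Y i) * Y i := by
  induction s using Finset.induction_on with
  | empty =>
    intro b t _
    refine ⟨0, by simp, ?_⟩
    simp
  | insert w s hw ih =>
    intro b t h
    rw [Finset.sum_insert hw] at h
    have hpos : 0 ≤ ∑ i ∈ s, star (t i) * t i := Finset.sum_nonneg fun i _ => star_mul_self_nonneg _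
    have h1 : 0 ≤ star b * b - star (t w) * t w := by
      have := add_nonneg h hpos
      have e : star b * b - (star (t w) * t w + ∑ i ∈ s, star (t i) * t i) + ∑ i ∈ s, star (t i) * t i
        = star b * b - star (t w) * t w := by abel
      rwa [e] at this
    obtain ⟨x, hx, hxt⟩ := hD (t w) b ((nonneg_iff_star_mul _).1 h1)
    obtain ⟨g, hg⟩ := (nonneg_iff_star_mul _).1 (sub_nonneg.2 (star_mul_self_le_one_of_norm hx))
    have hgb : star (g * b) * (g * b) = star b * b - star (t w) * t w := by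
      rw [star_mul, mul_assoc, ← mul_assoc (star g), ← hg, hxt, star_mul, sub_mul, mul_sub, one_mul]
      simp only [mul_assoc]
    obtain ⟨Y, hY1, hY2⟩ := ih (g * b) t (by
      rw [hgb]
      have e : star b * b - star (t w) * t w - ∑ i ∈ s, star (t i) * t i
        = star b * b - (star (t w) * t w + ∑ i ∈ s, star (t i) * t i) := by abel
      rwa [e])
    refine ⟨fun i => if i = w then x else Y i * g, ?_, ?_⟩
    · intro i hi
      by_cases hiw : i = w
      · subst hiw; simpa using hxt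
      · have := hY1 i ((Finset.mem_insert.1 hi).resolve_left hiw)
        simp only [if_neg hiw]
        rw [this, mul_assoc]
    · rw [Finset.sum_insert hw]
      simp only [if_true]
      have e : ∑ i ∈ s, star (if i = w then x else Y i * g) * (if i = w then x else Y i * g)
        = star g * (∑ i ∈ s, star (Y i) * Y i) * g := by
        rw [Finset.mul_sum, Finset.sum_mul]
        refine Finset.sum_congr rfl fun i hi => ?_
        have hiw : i ≠ w := fun h => hw (h ▸ hi)
        rw [if_neg hiw, star_mul]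
        simp only [mul_assoc]
      rw [e]
      have e2 : 1 - (star x * x + star g * (∑ i ∈ s, star (Y i) * Y i) * g)
        = star g * (1 - ∑ i ∈ s, star (Y i) * Y i) * g := by
        rw [mul_sub, sub_mul, mul_one, ← hg]
        abel
      rw [e2]
      exact star_left_conjugate_nonneg hY2 g

lemma col_factor (hD : HasDouglas A) {ρ : Type*} [Fintype ρ] [DecidableEq ρ] (T : Matrix ρ (Fin 1) A)
    (q : Matrix (Fin 1) (Fin 1) A) (h : Tᴴ * T = qᴴ * q) :
    ∃ Z : Matrix ρ (Fin 1) A, Contr Z ∧ T = Z * q := by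
  have h1 : ∑ i, star (T i 0) * T i 0 = star (q 0 0) * q 0 0 := by
    have := congrFun (congrFun h 0) 0
    simpa [Matrix.mul_apply] using this
  obtain ⟨Y, hY1, hY2⟩ := douglas_col hD Finset.univ (q 0 0) (fun i => T i 0) (by rw [h1, sub_self])
  refine ⟨Matrix.of fun i _ => Y i, ?_, ?_⟩
  · obtain ⟨c, hc⟩ := (nonneg_iff_star_mul _).1 hY2
    refine ⟨Matrix.of fun _ _ => c, ?_⟩
    ext i j
    fin_cases i
    fin_cases j
    simp [Matrix.mul_apply]
    exact hc
  · ext i j
    fin_cases j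
    simp [Matrix.mul_apply]
    exact hY1 i (Finset.mem_univ i)

omit [PartialOrder A] [StarOrderedRing A] in
lemma gram_compl {ρ κ γ : Type*} [Fintype ρ] [DecidableEq ρ] [Fintype κ]
    {Y : Matrix ρ κ A} {g : Matrix ρ ρ A} (hg : gᴴ * g = 1 - Y * Yᴴ) (R : Matrix ρ γ A) :
    (g * R)ᴴ * (g * R) = Rᴴ * R - (Yᴴ * R)ᴴ * (Yᴴ * R) := by
  rw [Matrix.conjTranspose_mul, Matrix.mul_assoc, ← Matrix.mul_assoc gᴴ, hg, Matrix.sub_mul,
    Matrix.mul_sub, Matrix.one_mul, Matrix.conjTranspose_mul, Matrix.conjTranspose_conjTranspose]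
  simp only [Matrix.mul_assoc]

/-- one more column for a contraction -/
lemma Contr.extend_col {ρ κ : Type*} [Fintype ρ] [DecidableEq ρ] [Fintype κ] [DecidableEq κ]
    {Y : Matrix ρ κ A} {g : Matrix ρ ρ A} (hg : gᴴ * g = 1 - Y * Yᴴ) {Z : Matrix ρ (Fin 1) A}
    (hZ : Contr Z) : Contr (Matrix.fromCols Y (gᴴ * Z)) := by
  have h1 : Contr (Matrix.fromCols Y (gᴴ * Z))ᴴ := by
    unfold Contr
    rw [Matrix.conjTranspose_conjTranspose, Matrix.conjTranspose_fromCols_eq_fromRows_conjTranspose,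
      Matrix.fromCols_mul_fromRows, Matrix.conjTranspose_mul, Matrix.conjTranspose_conjTranspose]
    have h2 : MPos (gᴴ * (1 - Z * Zᴴ) * g) := by
      have := hZ.conjT
      unfold Contr at this
      rw [Matrix.conjTranspose_conjTranspose] at this
      exact this.conj g
    have e : gᴴ * (1 - Z * Zᴴ) * g = 1 - (Y * Yᴴ + gᴴ * Z * (Zᴴ * g)) := by
      rw [Matrix.mul_sub, Matrix.sub_mul, Matrix.mul_one, hg]
      simp only [Matrix.mul_assoc]
      abel
    rwa [e] at h2
  have := h1.conjT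
  rwa [Matrix.conjTranspose_conjTranspose] at this

/-- adding one column -/
lemma CF_succ (hD : HasDouglas A) {κ : Type} [Fintype κ] [DecidableEq κ] (hCF : CF A κ) : CF A (κ ⊕ Fin 1) := by
  intro ρ _ _ R S hRS
  obtain ⟨R', R1, rfl⟩ : ∃ R' R1, R = Matrix.fromCols R' R1 := ⟨R.toCols₁, R.toCols₂, by simp⟩
  obtain ⟨S', S1, rfl⟩ : ∃ S' S1, S = Matrix.fromCols S' S1 := ⟨S.toCols₁, S.toCols₂, by simp⟩
  rw [Matrix.conjTranspose_fromCols_eq_fromRows_conjTranspose,
    Matrix.conjTranspose_fromCols_eq_fromRows_conjTranspose, Matrix.fromRows_mul_fromCols,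
    Matrix.fromRows_mul_fromCols, Matrix.fromBlocks_inj] at hRS
  obtain ⟨h1, h2, h3, h4⟩ := hRS
  obtain ⟨L, Y, Y', hY, hY', hR, hS, hL⟩ := hCF ρ R' S' h1
  have hLγ : Lᴴ * (Yᴴ * R1) = R'ᴴ * R1 := by
    rw [← Matrix.mul_assoc, ← Matrix.conjTranspose_mul, ← hR]
  have hLγ' : Lᴴ * (Y'ᴴ * S1) = S'ᴴ * S1 := by
    rw [← Matrix.mul_assoc, ← Matrix.conjTranspose_mul, ← hS]
  obtain ⟨e, he, he1, heL, heγ⟩ := saw_of_iso (HasIso_of_CF hCF) L (Yᴴ * R1 - Y'ᴴ * S1) (by
    rw [Matrix.mul_sub, hLγ, hLγ', h2, sub_self])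
  have hes : eᴴ = e := he.isHermitian
  -- `e` is a contraction
  have hec : Contr e := by
    have g1 := (he1.conj e).add (he.conj (1 - e))
    have : eᴴ * (1 - e) * e + (1 - e)ᴴ * e * (1 - e) = e * (1 - e) := by
      rw [Matrix.conjTranspose_sub, Matrix.conjTranspose_one, hes]
      noncomm_ring
    rw [this] at g1
    have g2 := g1.add he1
    have : e * (1 - e) + (1 - e) = 1 - eᴴ * e := by
      rw [hes]; noncomm_ring
    unfold Contr
    rwa [this] at g2
  have hY1 : Contr (Y * e) := hY.mul hec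
  have hY1' : Contr (Y' * e) := hY'.mul hec
  have hR1 : Y * e * L = R' := by rw [Matrix.mul_assoc, heL, ← hR]
  have hS1 : Y' * e * L = S' := by rw [Matrix.mul_assoc, heL, ← hS]
  have hγ : (Y * e)ᴴ * R1 = (Y' * e)ᴴ * S1 := by
    rw [Matrix.mul_sub, sub_eq_zero] at heγ
    rw [Matrix.conjTranspose_mul, Matrix.conjTranspose_mul, hes, Matrix.mul_assoc, Matrix.mul_assoc, heγ]
  obtain ⟨g, hg⟩ : ∃ g : Matrix ρ ρ A, gᴴ * g = 1 - (Y * e) * (Y * e)ᴴ := by
    have := hY1.conjT
    unfold Contr at this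
    rw [Matrix.conjTranspose_conjTranspose] at this
    exact this.exists_factor
  obtain ⟨g', hg'⟩ : ∃ g' : Matrix ρ ρ A, g'ᴴ * g' = 1 - (Y' * e) * (Y' * e)ᴴ := by
    have := hY1'.conjT
    unfold Contr at this
    rw [Matrix.conjTranspose_conjTranspose] at this
    exact this.exists_factor
  have hT := gram_compl hg R1
  have hT' := gram_compl hg' S1
  obtain ⟨q, hq⟩ := gram (g * R1)
  obtain ⟨Z, hZ, hZT⟩ := col_factor hD (g * R1) q hq
  obtain ⟨Z', hZ', hZT'⟩ := col_factor hD (g' * S1) q (by rw [← hq, hT, hT', hγ, h4])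
  refine ⟨Matrix.fromBlocks L ((Y * e)ᴴ * R1) 0 q, Matrix.fromCols (Y * e) (gᴴ * Z),
    Matrix.fromCols (Y' * e) (g'ᴴ * Z'), Contr.extend_col hg hZ, Contr.extend_col hg' hZ', ?_, ?_, ?_⟩
  · rw [Matrix.fromCols_mul_fromBlocks, Matrix.mul_zero, add_zero, hR1]
    congr 1
    rw [Matrix.mul_assoc gᴴ, ← hZT, ← Matrix.mul_assoc gᴴ, hg, Matrix.sub_mul, Matrix.one_mul,
      ← Matrix.mul_assoc]
    abel
  · rw [Matrix.fromCols_mul_fromBlocks, Matrix.mul_zero, add_zero, hS1, hγ]
    congr 1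
    rw [Matrix.mul_assoc g'ᴴ, ← hZT', ← Matrix.mul_assoc g'ᴴ, hg', Matrix.sub_mul, Matrix.one_mul,
      ← Matrix.mul_assoc]
    abel
  · rw [Matrix.fromBlocks_conjTranspose, Matrix.fromBlocks_multiply,
      Matrix.conjTranspose_fromCols_eq_fromRows_conjTranspose, Matrix.fromRows_mul_fromCols,
      Matrix.fromBlocks_inj]
    refine ⟨?_, ?_, ?_, ?_⟩
    · rw [Matrix.conjTranspose_zero, Matrix.zero_mul, add_zero, hL]
    · rw [Matrix.conjTranspose_zero, Matrix.zero_mul, add_zero, ← Matrix.mul_assoc, ← Matrix.conjTranspose_mul,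
        hR1]
    · rw [Matrix.mul_zero, add_zero, Matrix.conjTranspose_mul, Matrix.conjTranspose_conjTranspose,
        Matrix.mul_assoc, hR1]
    · rw [← hq, hT]
      abel

omit [PartialOrder A] [StarOrderedRing A] in
lemma CF_zero : CF A (Fin 0) := by
  intro ρ _ _ R S _
  refine ⟨0, R, S, ⟨0, ?_⟩, ⟨0, ?_⟩, ?_, ?_, ?_⟩
  all_goals
    ext i j
    exact j.elim0

lemma CF_equiv {κ κ' : Type} [Fintype κ] [DecidableEq κ] [Fintype κ'] [DecidableEq κ'] (e : κ' ≃ κ)
    (h : CF A κ) : CF A κ' := by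
  intro ρ _ _ R S hRS
  obtain ⟨L, Y, Y', hY, hY', hR, hS, hL⟩ := h ρ (R.submatrix id e.symm) (S.submatrix id e.symm) (by
    ext i j
    exact congrFun (congrFun hRS (e.symm i)) (e.symm j))
  have key : ∀ Z : Matrix ρ κ A, Contr Z → Contr (Z.submatrix id e) := by
    intro Z hZ
    unfold Contr at *
    have := hZ.submatrix e
    have e1 : (1 - Zᴴ * Z).submatrix e e = 1 - (Z.submatrix id e)ᴴ * Z.submatrix id e := by
      show (1 : Matrix κ κ A).submatrix e e - (Zᴴ * Z).submatrix e e = _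
      rw [Matrix.submatrix_one_equiv]
      rfl
    rwa [e1] at this
  refine ⟨L.submatrix e e, Y.submatrix id e, Y'.submatrix id e, key Y hY, key Y' hY', ?_, ?_, ?_⟩
  · rw [Matrix.submatrix_mul_equiv, ← hR]
    simp
  · rw [Matrix.submatrix_mul_equiv, ← hS]
    simp
  · rw [Matrix.conjTranspose_submatrix, Matrix.submatrix_mul_equiv, hL]
    ext i j
    simp [Matrix.mul_apply]

theorem CF_all (hD : HasDouglas A) (k : ℕ) : CF A (Fin k) := by
  induction k with
  | zero => exact CF_zero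
  | succ k ih => exact CF_equiv finSumFinEquiv.symm (CF_succ hD ih)

end Unital

end Pool.Agent.MP_a554a0
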