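import Pool.Agent.Lib.MP_a554a0_an.Saw3

set_option autoImplicit false

namespace Pool.Agent.MP_a554a0

/-- `X` is an F-space (sub-Stonean space): functions with product zero have disjoint supports. -/
def IsFSpace (X : Type*) [TopologicalSpace X] : Prop :=
  ∀ f g : C(X, ℂ), f * g = 0 → Disjoint (closure {x | f x ≠ 0}) (closure {x | g x ≠ 0})

variable {X : Type*} [TopologicalSpace X] [CompactSpace X] [T2Space X]

omit [T2Space X] in
lemma fspace_of_douglas (h : HasDouglas C(X, ℂ)) : IsFSpace X := by
  intro f g hfg
  have hfg' : ∀ x, f x * g x = 0 := fun x => by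
    have := congrArg (fun k : C(X, ℂ) => k x) hfg
    simpa using this
  have hcross : star f * f * (star g * g) = 0 := by
    have : star f * f * (star g * g) = star f * star g * (f * g) := by ring
    rw [this, hfg, mul_zero]
  obtain ⟨x, _, hx⟩ := h (star f * f - star g * g) (star f * f + star g * g) ⟨0, by
    simp only [star_sub, star_add, star_mul, star_star, mul_zero, star_zero]
    have e : (star f * f + star g * g) * (star f * f + star g * g)
        - (star f * f - star g * g) * (star f * f - star g * g) = 4 * (star f * f * (star g * g)) := by ring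
    rw [e, hcross, mul_zero]⟩
  have hpt : ∀ p, star (f p) * f p - star (g p) * g p = x p * (star (f p) * f p + star (g p) * g p) := by
    intro p
    have := congrArg (fun k : C(X, ℂ) => k p) hx
    simpa using this
  have h1 : closure {p | f p ≠ 0} ⊆ {p | x p = 1} := by
    apply closure_minimal
    · intro p hp
      have hg : g p = 0 := (mul_eq_zero.1 (hfg' p)).resolve_left hp
      have := hpt p
      rw [hg] at this
      simp only [mul_zero, sub_zero, add_zero] at this
      have h0 : star (f p) * f p ≠ 0 := mul_ne_zero (star_ne_zero.2 hp) hp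
      have h2 : (1 - x p) * (star (f p) * f p) = 0 := by rw [sub_mul, one_mul, ← this, sub_self]
      have h3 := (mul_eq_zero.1 h2).resolve_right h0
      exact (sub_eq_zero.1 h3).symm
    · exact isClosed_eq x.continuous continuous_const
  have h2 : closure {p | g p ≠ 0} ⊆ {p | x p = -1} := by
    apply closure_minimal
    · intro p hp
      have hg : f p = 0 := (mul_eq_zero.1 (hfg' p)).resolve_right hp
      have := hpt p
      rw [hg] at this
      simp only [mul_zero, zero_sub, zero_add] at this
      have h0 : star (g p) * g p ≠ 0 := mul_ne_zero (star_ne_zero.2 hp) hp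
      have h2 : (1 + x p) * (star (g p) * g p) = 0 := by rw [add_mul, one_mul, ← this, add_neg_cancel]
      have h3 := (mul_eq_zero.1 h2).resolve_right h0
      exact (neg_eq_of_add_eq_zero_right h3).symm
    · exact isClosed_eq x.continuous continuous_const
  rw [Set.disjoint_left]
  intro p hp hq
  have e1 : x p = 1 := h1 hp
  have e2 : x p = -1 := h2 hq
  rw [e1] at e2
  norm_num at e2

/-- one step of the extension -/
lemma ext_step (hF : IsFSpace X) (a b : C(X, ℝ)) (hab : ∀ x, |a x| ≤ b x) :
    ∃ g : C(X, ℝ), (∀ x, |g x| ≤ 1 / 3) ∧ ∀ x, |a x - g x * b x| ≤ 2 / 3 * b x := by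
  set f : C(X, ℂ) := ⟨fun x => ((max (a x - b x / 3) 0 : ℝ) : ℂ), by fun_prop⟩ with hf
  set h : C(X, ℂ) := ⟨fun x => ((max (- a x - b x / 3) 0 : ℝ) : ℂ), by fun_prop⟩ with hh
  have hb : ∀ x, 0 ≤ b x := fun x => (abs_nonneg _).trans (hab x)
  have hfh : f * h = 0 := by
    ext x
    simp only [hf, hh, ContinuousMap.mul_apply, ContinuousMap.coe_mk, ContinuousMap.zero_apply]
    rw [← Complex.ofReal_mul]
    norm_cast
    rcases le_total (a x) 0 with h1 | h1
    · rw [max_eq_right (by linarith [hb x]), zero_mul]
    · rw [max_eq_right (a := - a x - b x / 3) (by linarith [hb x]), mul_zero]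
  have hd := hF f h hfh
  obtain ⟨u, hu0, hu1, hu2⟩ := exists_continuous_zero_one_of_isClosed (isClosed_closure (s := {x | h x ≠ 0}))
    (isClosed_closure (s := {x | f x ≠ 0})) hd.symm
  refine ⟨⟨fun x => (2 * u x - 1) / 3, by fun_prop⟩, ?_, ?_⟩
  · intro x
    have := hu2 x
    simp only [ContinuousMap.coe_mk]
    rw [abs_le]
    constructor <;> linarith [this.1, this.2]
  · intro x
    have hu := hu2 x
    have hbx := hb x
    have ha := abs_le.1 (hab x)
    simp only [ContinuousMap.coe_mk]
    by_cases h1 : b x / 3 < a x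
    · have hfx : f x ≠ 0 := by
        simp only [hf, ContinuousMap.coe_mk]
        rw [max_eq_left (by linarith)]
        norm_cast
        linarith
      have := hu1 (subset_closure hfx)
      simp only [Pi.one_apply] at this
      rw [this, abs_le]
      constructor <;> linarith [ha.1, ha.2]
    · by_cases h2 : b x / 3 < - a x
      · have hhx : h x ≠ 0 := by
          simp only [hh, ContinuousMap.coe_mk]
          rw [max_eq_left (by linarith)]
          norm_cast
          linarith
        have := hu0 (subset_closure hhx)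
        simp only [Pi.zero_apply] at this
        rw [this, abs_le]
        constructor <;> linarith [ha.1, ha.2]
      · push Not at h1 h2
        have h3 : |a x| ≤ b x / 3 := abs_le.2 ⟨by linarith, h1⟩
        have h4 : |(2 * u x - 1) / 3 * b x| ≤ b x / 3 := by
          rw [abs_mul, abs_of_nonneg hbx]
          have : |(2 * u x - 1) / 3| ≤ 1 / 3 := by
            rw [abs_le]
            constructor <;> linarith [hu.1, hu.2]
          nlinarith
        calc |a x - (2 * u x - 1) / 3 * b x| ≤ |a x| + |(2 * u x - 1) / 3 * b x| := abs_sub _ _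
          _ ≤ 2 / 3 * b x := by linarith

/-- division in `C(X, ℝ)` for an F-space -/
lemma exists_real_quot (hF : IsFSpace X) (a b : C(X, ℝ)) (hab : ∀ x, |a x| ≤ b x) :
    ∃ q : C(X, ℝ), ∀ x, a x = q x * b x := by
  choose! G hG1 hG2 using ext_step hF
  set T : C(X, ℝ) → C(X, ℝ) := fun c => (3 / 2 : ℝ) • (c - G c b * b) with hT
  set s : ℕ → C(X, ℝ) := fun n => T^[n] a with hs
  have hsn : ∀ n x, |s n x| ≤ b x := by
    intro n
    induction n with
    | zero => exact hab
    | succ n ih =>
      intro x
      have e : s (n + 1) = T (s n) := by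
        simp only [hs, Function.iterate_succ', Function.comp]
      have h1 := hG2 (s n) b ih x
      rw [e]
      simp only [hT, ContinuousMap.smul_apply, ContinuousMap.sub_apply, ContinuousMap.mul_apply, smul_eq_mul]
      rw [abs_mul, abs_of_nonneg (by norm_num : (0 : ℝ) ≤ 3 / 2)]
      linarith
  have hrec : ∀ n x, s n x = G (s n) b x * b x + 2 / 3 * s (n + 1) x := by
    intro n x
    have e : s (n + 1) = T (s n) := by
      simp only [hs, Function.iterate_succ', Function.comp]
    rw [e]
    simp only [hT, ContinuousMap.smul_apply, ContinuousMap.sub_apply, ContinuousMap.mul_apply, smul_eq_mul]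
    ring
  set t : ℕ → C(X, ℝ) := fun n => ((2 / 3 : ℝ) ^ n) • G (s n) b with ht
  have htn : ∀ n, ‖t n‖ ≤ (2 / 3 : ℝ) ^ n := by
    intro n
    rw [ContinuousMap.norm_le _ (by positivity)]
    intro x
    simp only [ht, ContinuousMap.smul_apply, smul_eq_mul, Real.norm_eq_abs]
    rw [abs_mul, abs_of_nonneg (by positivity)]
    have := hG1 (s n) b (hsn n) x
    have h2 : (0 : ℝ) < (2 / 3) ^ n := by positivity
    nlinarith
  have hsum : Summable t := Summable.of_norm_bounded (summable_geometric_of_lt_one (by norm_num) (by norm_num)) htn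
  refine ⟨∑' n, t n, ?_⟩
  intro x
  have hpt : HasSum (fun n => t n x) ((∑' n, t n) x) := ContinuousMap.hasSum_apply hsum.hasSum x
  have hpt2 : HasSum (fun n => t n x * b x) ((∑' n, t n) x * b x) := hpt.mul_right (b x)
  have hpart : ∀ N, ∑ n ∈ Finset.range N, t n x * b x = a x - (2 / 3 : ℝ) ^ N * s N x := by
    intro N
    induction N with
    | zero => simp [hs]
    | succ N ih =>
      rw [Finset.sum_range_succ, ih]
      simp only [ht, ContinuousMap.smul_apply, smul_eq_mul]
      rw [hrec N x]
      ring
  have hlim : Filter.Tendsto (fun N => ∑ n ∈ Finset.range N, t n x * b x) Filter.atTop (nhds (a x)) := by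
    simp only [hpart]
    have h0 : Filter.Tendsto (fun N => (2 / 3 : ℝ) ^ N * s N x) Filter.atTop (nhds 0) := by
      apply squeeze_zero_norm (a := fun N => (2 / 3 : ℝ) ^ N * b x)
      · intro N
        rw [Real.norm_eq_abs, abs_mul, abs_of_nonneg (by positivity : (0 : ℝ) ≤ (2 / 3) ^ N)]
        exact mul_le_mul_of_nonneg_left (hsn N x) (by positivity)
      · have := (tendsto_pow_atTop_nhds_zero_of_lt_one (by norm_num : (0 : ℝ) ≤ 2 / 3)
          (by norm_num : (2 / 3 : ℝ) < 1)).mul_const (b x)
        simpa using this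
    simpa using tendsto_const_nhds.sub h0
  exact tendsto_nhds_unique hlim hpt2.tendsto_sum_nat

lemma douglas_of_fspace (hF : IsFSpace X) : HasDouglas C(X, ℂ) := by
  rintro a b ⟨c, hc⟩
  have hab : ∀ x, ‖a x‖ ≤ ‖b x‖ := by
    intro x
    have h1 := congrArg (fun k : C(X, ℂ) => k x) hc
    simp only [ContinuousMap.sub_apply, ContinuousMap.mul_apply, ContinuousMap.star_apply] at h1
    have h2 : ∀ z : ℂ, star z * z = ((‖z‖ ^ 2 : ℝ) : ℂ) := by
      intro z
      rw [Complex.star_def, ← Complex.normSq_eq_conj_mul_self, Complex.normSq_eq_norm_sq]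
    rw [h2, h2, h2] at h1
    norm_cast at h1
    have h3 : ‖a x‖ ^ 2 ≤ ‖b x‖ ^ 2 := by nlinarith [sq_nonneg ‖c x‖]
    exact (pow_le_pow_iff_left₀ (norm_nonneg _) (norm_nonneg _) (by norm_num)).1 h3
  set B : C(X, ℝ) := ⟨fun x => ‖b x‖ ^ 2, by fun_prop⟩ with hB
  set a1 : C(X, ℝ) := ⟨fun x => (a x * star (b x)).re, by fun_prop⟩ with ha1
  set a2 : C(X, ℝ) := ⟨fun x => (a x * star (b x)).im, by fun_prop⟩ with ha2
  have hn : ∀ x, ‖a x * star (b x)‖ ≤ ‖b x‖ ^ 2 := by
    intro x
    rw [norm_mul, norm_star]
    nlinarith [hab x, norm_nonneg (b x)]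
  obtain ⟨q1, hq1⟩ := exists_real_quot hF a1 B (fun x => (Complex.abs_re_le_norm _).trans (hn x))
  obtain ⟨q2, hq2⟩ := exists_real_quot hF a2 B (fun x => (Complex.abs_im_le_norm _).trans (hn x))
  set q : X → ℂ := fun x => (q1 x : ℂ) + (q2 x : ℂ) * Complex.I with hq
  have hqc : Continuous q := by fun_prop
  have hmax : ∀ x, 0 < max 1 ‖q x‖ := fun x => lt_of_lt_of_le one_pos (le_max_left _ _)
  have hmc : Continuous fun x => ((max 1 ‖q x‖ : ℝ) : ℂ) := by fun_prop
  set y : C(X, ℂ) := ⟨fun x => q x / ((max 1 ‖q x‖ : ℝ) : ℂ), hqc.div hmc (fun x => by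
    exact_mod_cast (hmax x).ne')⟩ with hy
  refine ⟨y, ?_, ?_⟩
  · rw [ContinuousMap.norm_le _ zero_le_one]
    intro x
    simp only [hy, ContinuousMap.coe_mk]
    rw [norm_div, Complex.norm_real, Real.norm_eq_abs, abs_of_pos (hmax x), div_le_one (hmax x)]
    exact le_max_right _ _
  · ext x
    simp only [hy, ContinuousMap.coe_mk, ContinuousMap.mul_apply]
    by_cases hb : b x = 0
    · have : a x = 0 := by
        have := hab x
        rw [hb, norm_zero] at this
        exact norm_le_zero_iff.1 this
      rw [hb, this, mul_zero]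
    · have h1 : a x * star (b x) = q x * (star (b x) * b x) := by
        have h2 : star (b x) * b x = ((‖b x‖ ^ 2 : ℝ) : ℂ) := by
          rw [Complex.star_def, ← Complex.normSq_eq_conj_mul_self, Complex.normSq_eq_norm_sq]
        rw [h2]
        have e1 := hq1 x
        have e2 := hq2 x
        simp only [ha1, ha2, hB, ContinuousMap.coe_mk] at e1 e2
        apply Complex.ext
        · rw [e1, Complex.re_mul_ofReal]
          congr 1
          simp [hq]
        · rw [e2, Complex.im_mul_ofReal]
          congr 1
          simp [hq]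
      have h3 : a x = q x * b x := by
        have h4 : (a x - q x * b x) * star (b x) = 0 := by
          rw [sub_mul, h1]; ring
        have h5 := (mul_eq_zero.1 h4).resolve_right (star_ne_zero.2 hb)
        exact sub_eq_zero.1 h5
      have h6 : ‖q x‖ ≤ 1 := by
        have h7 := hab x
        rw [h3, norm_mul] at h7
        have h8 : 0 < ‖b x‖ := norm_pos_iff.2 hb
        by_contra hcon
        push Not at hcon
        nlinarith
      rw [max_eq_left h6]
      simpa using h3

end Pool.Agent.MP_a554a0
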