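import Pool.Agent.Lib.MP_a554a0_an.OfLocal

set_option autoImplicit false

open Matrix

namespace Pool.Agent.MP_a554a0

section Unital

variable {A : Type*} [CStarAlgebra A] [PartialOrder A] [StarOrderedRing A]

/-- rectangular contractions -/
def Contr {m n : Type*} [Fintype m] [Fintype n] [DecidableEq n] (Y : Matrix m n A) : Prop :=
  MPos (1 - Yᴴ * Y)

omit [PartialOrder A] [StarOrderedRing A] in
lemma MPos.exists_factor {m : Type*} [Fintype m] {X : Matrix m m A} (h : MPos X) :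
    ∃ g : Matrix m m A, gᴴ * g = X := by
  obtain ⟨Y, hY⟩ := h
  exact ⟨Y, hY.symm⟩

lemma Contr.mul {l m n : Type*} [Fintype l] [Fintype m] [Fintype n] [DecidableEq m] [DecidableEq n]
    {X : Matrix l m A} {Y : Matrix m n A} (hX : Contr X) (hY : Contr Y) : Contr (X * Y) := by
  unfold Contr at *
  have h := hY.add (hX.conj Y)
  have e : 1 - Yᴴ * Y + Yᴴ * (1 - Xᴴ * X) * Y = 1 - (X * Y)ᴴ * (X * Y) := by
    rw [Matrix.conjTranspose_mul, Matrix.mul_sub, Matrix.sub_mul, Matrix.mul_one]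
    simp only [Matrix.mul_assoc]
    abel
  rwa [e] at h

/-- `p ≥ 0`, `p² ≤ p` imply `p ≤ 1` -/
lemma le_one_of_sq_le {B : Type*} [CStarAlgebra B] [PartialOrder B] [StarOrderedRing B] {p : B} (hp : 0 ≤ p)
    (h : p * p ≤ p) : p ≤ 1 := by
  have h0 : 0 ≤ p * p := by
    have : p * p = star p * p := by rw [(IsSelfAdjoint.of_nonneg hp).star_eq]
    rw [this]; exact star_mul_self_nonneg p
  have h1 : ‖p * p‖ ≤ ‖p‖ := CStarAlgebra.norm_le_norm_of_nonneg_of_le h0 h
  have h2 : ‖p * p‖ = ‖p‖ * ‖p‖ := by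
    have : p * p = star p * p := by rw [(IsSelfAdjoint.of_nonneg hp).star_eq]
    rw [this, CStarRing.norm_star_mul_self]
  have h3 : ‖p‖ ≤ 1 := by
    rw [h2] at h1
    by_contra hc
    push Not at hc
    nlinarith
  exact (CStarAlgebra.norm_le_one_iff_of_nonneg p hp).1 h3

lemma Contr.conjT {m n : Type*} [Fintype m] [Fintype n] [DecidableEq m] [DecidableEq n]
    {Y : Matrix m n A} (hY : Contr Y) : Contr Yᴴ := by
  unfold Contr at *
  have h := hY.conj Yᴴ
  rw [Matrix.conjTranspose_conjTranspose] at h ⊢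
  have e : Y * (1 - Yᴴ * Y) * Yᴴ = Y * Yᴴ - (Y * Yᴴ) * (Y * Yᴴ) := by
    rw [Matrix.mul_sub, Matrix.sub_mul, Matrix.mul_one]
    simp only [Matrix.mul_assoc]
  rw [e] at h
  have h2 : MPos (Y * Yᴴ) := by
    have := gram Yᴴ
    rwa [Matrix.conjTranspose_conjTranspose] at this
  rw [mpos_iff] at h h2 ⊢
  have h3 : (CStarMatrix.ofMatrix (Y * Yᴴ) : CStarMatrix m m A) ≤ 1 := by
    apply le_one_of_sq_le h2
    have : (CStarMatrix.ofMatrix (Y * Yᴴ - (Y * Yᴴ) * (Y * Yᴴ)) : CStarMatrix m m A)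
      = CStarMatrix.ofMatrix (Y * Yᴴ) - CStarMatrix.ofMatrix (Y * Yᴴ) * CStarMatrix.ofMatrix (Y * Yᴴ) := rfl
    rw [this] at h
    exact sub_nonneg.1 h
  have h4 := sub_nonneg.2 h3
  exact h4

end Unital

end Pool.Agent.MP_a554a0
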