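import Mathlib

/-!
# Positive completions of partial matrices over a C*-algebra: definitions

`A` is a C*-algebra, unital or not. Graphs on `{1,...,n}` are `SimpleGraph (Fin n)`; the loops are
understood to be present.
-/

set_option autoImplicit false

open Matrix

namespace Pool.Agent.MP_a554a0

section

variable {A : Type*} [NonUnitalRing A] [StarRing A]

/-- Positivity in the C*-algebra of square matrices over a C*-algebra: `X = Y* Y` for some `Y`. -/
def MPos {ι : Type*} [Fintype ι] (X : Matrix ι ι A) : Prop := ∃ Y : Matrix ι ι A, X = Yᴴ * Y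

/-- `M_+(Γ)`: matrices whose restriction to every clique of `Γ` is positive. -/
def InMPlus {n : ℕ} (Γ : SimpleGraph (Fin n)) (X : Matrix (Fin n) (Fin n) A) : Prop :=
  ∀ K : Finset (Fin n), Γ.IsClique (K : Set (Fin n)) →
    MPos (X.submatrix (fun i : K => (i : Fin n)) (fun i : K => (i : Fin n)))

/-- `Y` is a positive completion of `X` with respect to `Γ`. -/
def IsCompletion {n : ℕ} (Γ : SimpleGraph (Fin n)) (X Y : Matrix (Fin n) (Fin n) A) : Prop :=
  MPos Y ∧ ∀ i j, (i = j ∨ Γ.Adj i j) → Y i j = X i j

end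

/-- `Γ ∈ G(A)`: every element of `M_+(Γ)` has a positive completion. -/
def InG (A : Type*) [NonUnitalRing A] [StarRing A] {n : ℕ} (Γ : SimpleGraph (Fin n)) : Prop :=
  ∀ X : Matrix (Fin n) (Fin n) A, InMPlus Γ X → ∃ Y, IsCompletion Γ X Y

/-- `Γ` is a disjoint union of complete graphs: any two distinct vertices in the same connected
component are adjacent. -/
def IsCliqueUnion {n : ℕ} (Γ : SimpleGraph (Fin n)) : Prop :=
  ∀ i j, Γ.Reachable i j → i ≠ j → Γ.Adj i j

/-- `K_n^{(0)}`: the complete graph on `n` vertices with the edge between the first and the last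
vertex deleted. -/
def K0 (n : ℕ) : SimpleGraph (Fin n) where
  Adj i j := i ≠ j ∧ ¬ ((i : ℕ) = 0 ∧ (j : ℕ) + 1 = n) ∧ ¬ ((j : ℕ) = 0 ∧ (i : ℕ) + 1 = n)
  symm := ⟨fun _ _ h => ⟨h.1.symm, h.2.2, h.2.1⟩⟩
  loopless := ⟨fun _ h => h.1 rfl⟩

/-- `B` is an SAW*-algebra (Pedersen): for positive `x, y` with `x y = 0` there is a positive `e`
with `e x = x` and `e y = 0`. -/
def IsSAWStar (B : Type*) [NonUnitalRing B] [StarRing B] : Prop :=
  ∀ x y : B, (∃ u, x = star u * u) → (∃ v, y = star v * v) → x * y = 0 →
    ∃ e : B, (∃ w, e = star w * w) ∧ e * x = x ∧ e * y = 0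

/-- Local version of the SAW* condition, for algebras without unit: for all `h, x, y` with
`x* y = 0` there is `e` with `h* [x] h ≤ e ≤ h* (1 - [y]) h`, where `[x]` is the left support of `x`
in the second dual; the two inequalities are written as positivity of two-by-two matrices. -/
def IsLocalSAWStar (B : Type*) [NonUnitalRing B] [StarRing B] : Prop :=
  ∀ h x y : B, star x * y = 0 → ∃ e : B,
    MPos !![e, star h * x; star x * h, star x * x] ∧
    MPos !![star h * h - e, star h * y; star y * h, star y * y]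

/-- Contractive factorisation: `a* a ≤ b* b` implies `a = x b` with `‖x‖ ≤ 1`. -/
def HasDouglas (B : Type*) [NonUnitalNormedRing B] [StarRing B] : Prop :=
  ∀ a b : B, (∃ c, star b * b - star a * a = star c * c) → ∃ x : B, ‖x‖ ≤ 1 ∧ a = x * b

end Pool.Agent.MP_a554a0
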