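import Pool.Agent.Lib.MP_a554a0_an.CF



set_option autoImplicit false

open Matrix

namespace Pool.Agent.MP_a554a0

section Unital

variable {A : Type*} [CStarAlgebra A] [PartialOrder A] [StarOrderedRing A]

lemma saw_of_douglas (hD : HasDouglas A) (m : ℕ) : IsSAWStar (Matrix (Fin m) (Fin m) A) := by
  rintro x y ⟨u, hu⟩ _ hxy
  have hx : xᴴ = x := MPos.isHermitian ⟨u, hu⟩
  obtain ⟨e, he, _, h1, h2⟩ := saw_of_iso (HasIso_of_CF (CF_all hD m)) x y (by rw [hx]; exact hxy)
  exact ⟨e, he, h1, h2⟩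

lemma local_of_douglas (hD : HasDouglas A) (m : ℕ) : IsLocalSAWStar (Matrix (Fin m) (Fin m) A) := by
  intro h x y hxy
  obtain ⟨e, he, he1, h1, h2⟩ := saw_of_iso (HasIso_of_CF (CF_all hD m)) x y hxy
  obtain ⟨g, hg⟩ := he.exists_factor
  obtain ⟨g', hg'⟩ := he1.exists_factor
  refine ⟨hᴴ * e * h, ?_, ?_⟩
  · have := mpos_block (g * h) (g * x)
    have e1 : (g * h)ᴴ * (g * h) = hᴴ * e * h := by
      rw [Matrix.conjTranspose_mul, ← hg]
      simp only [Matrix.mul_assoc]
    have e2 : (g * h)ᴴ * (g * x) = hᴴ * x := by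
      rw [Matrix.conjTranspose_mul, Matrix.mul_assoc, ← Matrix.mul_assoc gᴴ, hg, h1]
    have e3 : (g * x)ᴴ * (g * h) = xᴴ * h := by
      have := congrArg Matrix.conjTranspose e2
      simpa using this
    have e4 : (g * x)ᴴ * (g * x) = xᴴ * x := by
      rw [Matrix.conjTranspose_mul, Matrix.mul_assoc, ← Matrix.mul_assoc gᴴ, hg, h1]
    rw [e1, e2, e3, e4] at this
    exact this
  · have := mpos_block (g' * h) (g' * y)
    have hy : (1 - e) * y = y := by rw [Matrix.sub_mul, Matrix.one_mul, h2, sub_zero]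
    have e1 : (g' * h)ᴴ * (g' * h) = hᴴ * h - hᴴ * e * h := by
      rw [Matrix.conjTranspose_mul, Matrix.mul_assoc, ← Matrix.mul_assoc g'ᴴ, hg', Matrix.sub_mul,
        Matrix.mul_sub, Matrix.one_mul]
      simp only [Matrix.mul_assoc]
    have e2 : (g' * h)ᴴ * (g' * y) = hᴴ * y := by
      rw [Matrix.conjTranspose_mul, Matrix.mul_assoc, ← Matrix.mul_assoc g'ᴴ, hg', hy]
    have e3 : (g' * y)ᴴ * (g' * h) = yᴴ * h := by
      have := congrArg Matrix.conjTranspose e2
      simpa using this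
    have e4 : (g' * y)ᴴ * (g' * y) = yᴴ * y := by
      rw [Matrix.conjTranspose_mul, Matrix.mul_assoc, ← Matrix.mul_assoc g'ᴴ, hg', hy]
    rw [e1, e2, e3, e4] at this
    exact this

theorem K0_of_douglas (hD : HasDouglas A) (n : ℕ) (hn : 3 ≤ n) : InG A (K0 n) := by
  obtain ⟨k, rfl⟩ : ∃ k, n = k + 2 := ⟨n - 2, by omega⟩
  exact K0_of_local k (local_of_douglas hD _)

/-! ### `K_3^{(0)}` implies contractive factorisation -/

lemma norm_le_one_of_star_mul_self {x : A} (h : star x * x ≤ 1) : ‖x‖ ≤ 1 := by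
  have h1 := (CStarAlgebra.norm_le_one_iff_of_nonneg (star x * x) (star_mul_self_nonneg x)).2 h
  rw [CStarRing.norm_star_mul_self] at h1
  by_contra hc
  push Not at hc
  nlinarith [norm_nonneg x]

/-- entries of a contraction are contractions -/
lemma Contr.entry {m n : Type*} [Fintype m] [Fintype n] [DecidableEq n] {Y : Matrix m n A}
    (hY : Contr Y) (i : m) (j : n) : ‖Y i j‖ ≤ 1 := by
  classical
  apply norm_le_one_of_star_mul_self
  obtain ⟨G, hG⟩ := hY
  have h1 := congrFun (congrFun hG j) j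
  simp only [Matrix.sub_apply, Matrix.one_apply_eq, Matrix.mul_apply, Matrix.conjTranspose_apply] at h1
  have h2 : 0 ≤ ∑ k, star (G k j) * G k j := Finset.sum_nonneg fun k _ => star_mul_self_nonneg _
  rw [← h1] at h2
  have h3 : star (Y i j) * Y i j ≤ ∑ k, star (Y k j) * Y k j :=
    Finset.single_le_sum (fun k _ => star_mul_self_nonneg (Y k j)) (Finset.mem_univ i)
  exact h3.trans (sub_nonneg.1 h2)

theorem douglas_of_K0 (hK : InG A (K0 3)) : HasDouglas A := by
  classical
  rintro a b ⟨c, hc⟩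
  set X : Matrix (Fin 3) (Fin 3) A := !![1, a, 0; star a, star b * b, star b; 0, b, 1] with hX
  have hin : InMPlus (K0 3) X := by
    intro K hK'
    by_cases hl : (2 : Fin 3) ∈ K
    · -- `K ⊆ {1, 2}`
      have h0 : (0 : Fin 3) ∉ K := by
        intro h0
        exact (hK' (Finset.mem_coe.2 h0) (Finset.mem_coe.2 hl) (by decide)).2.1 ⟨rfl, rfl⟩
      have h1 : MPos (!![(0 : A), 0, 0; 0, star b * b, star b; 0, b, 1] : Matrix (Fin 3) (Fin 3) A) := by
        refine ⟨!![(0 : A), b, 1; 0, 0, 0; 0, 0, 0], ?_⟩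
        ext i j
        fin_cases i <;> fin_cases j <;> simp [Matrix.mul_apply, Fin.sum_univ_three]
      have h2 := h1.submatrix (fun i : K => (i : Fin 3))
      have e : X.submatrix (fun i : K => (i : Fin 3)) (fun i : K => (i : Fin 3))
          = (!![(0 : A), 0, 0; 0, star b * b, star b; 0, b, 1] : Matrix (Fin 3) (Fin 3) A).submatrix
            (fun i : K => (i : Fin 3)) (fun i : K => (i : Fin 3)) := by
        have key : ∀ i j : Fin 3, i ≠ 0 → j ≠ 0 →
            X i j = (!![(0 : A), 0, 0; 0, star b * b, star b; 0, b, 1] : Matrix (Fin 3) (Fin 3) A) i j := by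
          intro i j hi hj
          fin_cases i <;> fin_cases j <;> simp [hX] at hi hj ⊢
        apply Matrix.ext
        intro i j
        exact key i j (fun h => h0 (h ▸ i.2)) (fun h => h0 (h ▸ j.2))
      rw [e]; exact h2
    · have h1 : MPos (!![(1 : A), a, 0; star a, star b * b, 0; 0, 0, 0] : Matrix (Fin 3) (Fin 3) A) := by
        refine ⟨!![(1 : A), a, 0; 0, c, 0; 0, 0, 0], ?_⟩
        ext i j
        fin_cases i <;> fin_cases j <;> simp [Matrix.mul_apply, Fin.sum_univ_three, ← hc]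
      have h2 := h1.submatrix (fun i : K => (i : Fin 3))
      have e : X.submatrix (fun i : K => (i : Fin 3)) (fun i : K => (i : Fin 3))
          = (!![(1 : A), a, 0; star a, star b * b, 0; 0, 0, 0] : Matrix (Fin 3) (Fin 3) A).submatrix
            (fun i : K => (i : Fin 3)) (fun i : K => (i : Fin 3)) := by
        have key : ∀ i j : Fin 3, i ≠ 2 → j ≠ 2 →
            X i j = (!![(1 : A), a, 0; star a, star b * b, 0; 0, 0, 0] : Matrix (Fin 3) (Fin 3) A) i j := by
          intro i j hi hj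
          fin_cases i <;> fin_cases j <;> simp [hX] at hi hj ⊢
        apply Matrix.ext
        intro i j
        exact key i j (fun h => hl (h ▸ i.2)) (fun h => hl (h ▸ j.2))
      rw [e]; exact h2
  obtain ⟨Y, ⟨G, hG⟩, hY⟩ := hK X hin
  set col : Fin 3 → Matrix (Fin 3) (Fin 1) A := fun j => Matrix.of fun i _ => G i j with hcol
  have hD : ∀ i j, ((col i)ᴴ * col j) 0 0 = Y i j := by
    intro i j
    rw [hG]; rfl
  have y00 : Y 0 0 = 1 := by rw [hY 0 0 (Or.inl rfl)]; simp [hX]
  have y22 : Y 2 2 = 1 := by rw [hY 2 2 (Or.inl rfl)]; simp [hX]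
  have y11 : Y 1 1 = star b * b := by rw [hY 1 1 (Or.inl rfl)]; simp [hX]
  have y01 : Y 0 1 = a := by
    rw [hY 0 1 (Or.inr ⟨by decide, by simp, by simp⟩)]; simp [hX]
  have y12 : Y 1 2 = star b := by
    rw [hY 1 2 (Or.inr ⟨by decide, by simp, by simp⟩)]; simp [hX]
  have y21 : Y 2 1 = b := by
    rw [hY 2 1 (Or.inr ⟨by decide, by simp, by simp⟩)]; simp [hX]
  set bm : Matrix (Fin 1) (Fin 1) A := Matrix.of fun _ _ => b with hbm
  have hz : (col 1 - col 2 * bm)ᴴ * (col 1 - col 2 * bm) = 0 := by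
    have e : (col 1 - col 2 * bm)ᴴ * (col 1 - col 2 * bm)
        = (col 1)ᴴ * col 1 - ((col 1)ᴴ * col 2) * bm - bmᴴ * ((col 2)ᴴ * col 1)
          + bmᴴ * ((col 2)ᴴ * col 2) * bm := by
      rw [Matrix.conjTranspose_sub, Matrix.conjTranspose_mul, Matrix.sub_mul, Matrix.mul_sub, Matrix.mul_sub]
      simp only [Matrix.mul_assoc]
      abel
    rw [e]
    ext i j
    fin_cases i
    fin_cases j
    simp only [Matrix.add_apply, Matrix.sub_apply, Matrix.mul_apply (N := bm), Matrix.mul_apply (M := bmᴴ),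
      Finset.univ_unique, Finset.sum_singleton, Fin.default_eq_zero, Matrix.conjTranspose_apply (M := bm)]
    simp only [Fin.zero_eta, Fin.isValue, hD, y11, y12, y21, y22, hbm, Matrix.of_apply, Matrix.zero_apply]
    simp
  have hz2 := eq_zero_of_gram hz
  rw [sub_eq_zero] at hz2
  refine ⟨Y 0 2, ?_, ?_⟩
  · have c0 : Contr (col 0) := by
      refine ⟨0, ?_⟩
      ext i j
      fin_cases i
      fin_cases j
      simp only [Matrix.sub_apply]
      have := hD 0 0
      rw [y00] at this
      simp only [Fin.zero_eta, Fin.isValue, this]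
      simp
    have c2 : Contr (col 2) := by
      refine ⟨0, ?_⟩
      ext i j
      fin_cases i
      fin_cases j
      simp only [Matrix.sub_apply]
      have := hD 2 2
      rw [y22] at this
      simp only [Fin.zero_eta, Fin.isValue, this]
      simp
    have := (c0.conjT.mul c2).entry 0 0
    rwa [hD] at this
  · rw [← y01, ← hD, hz2, ← Matrix.mul_assoc, Matrix.mul_apply]
    simp only [Finset.univ_unique, Finset.sum_singleton, Fin.default_eq_zero]
    rw [hD, hbm, Matrix.of_apply]

end Unital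

end Pool.Agent.MP_a554a0
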