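import Pool.Agent.Lib.MP_a554a0_an.Pos

set_option autoImplicit false

open Matrix

namespace Pool.Agent.MP_a554a0

lemma not_cliqueUnion_K03 : ¬ IsCliqueUnion (K0 3) := by
  intro h
  have h01 : (K0 3).Adj 0 1 := ⟨by decide, by decide, by decide⟩
  have h12 : (K0 3).Adj 1 2 := ⟨by decide, by decide, by decide⟩
  have := h 0 2 (h01.reachable.trans h12.reachable) (by decide)
  exact this.2.1 ⟨rfl, rfl⟩

lemma exists_path {n : ℕ} {Γ : SimpleGraph (Fin n)} (hΓ : ¬ IsCliqueUnion Γ) :
    ∃ u v w, Γ.Adj u v ∧ Γ.Adj v w ∧ u ≠ w ∧ ¬ Γ.Adj u w := by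
  by_contra hcon
  push Not at hcon
  apply hΓ
  rintro i j ⟨p⟩ hij
  have : i = j ∨ Γ.Adj i j := by
    clear hij
    induction p with
    | nil => exact Or.inl rfl
    | @cons u v w h p ih =>
      rcases ih with rfl | h2
      · exact Or.inr h
      · by_cases huw : u = w
        · exact Or.inl huw
        · exact Or.inr (hcon u v w h h2 huw)
  exact this.resolve_left hij

variable {A : Type*} [NonUnitalCStarAlgebra A] [PartialOrder A] [StarOrderedRing A]

theorem K03_of_not_cliqueUnion {n : ℕ} {Γ : SimpleGraph (Fin n)} (h : InG A Γ) (hΓ : ¬ IsCliqueUnion Γ) :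
    InG A (K0 3) := by
  classical
  obtain ⟨u, v, w, huv, hvw, huw, hnuw⟩ := exists_path hΓ
  intro X hX
  set f : Fin 3 → Fin n := ![u, v, w] with hf
  have f0 : f 0 = u := rfl
  have f1 : f 1 = v := rfl
  have f2 : f 2 = w := rfl
  have finj : Function.Injective f := by
    intro a b hab
    have huv' := huv.ne
    have hvw' := hvw.ne
    fin_cases a <;> fin_cases b
    · rfl
    · exact absurd hab huv'
    · exact absurd hab huw
    · exact absurd hab huv'.symm
    · rfl
    · exact absurd hab hvw'
    · exact absurd hab huw.symm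
    · exact absurd hab hvw'.symm
    · rfl
  set Z : Matrix (Fin n) (Fin n) A := Matrix.of fun i j =>
    if h : (∃ a, f a = i) ∧ (∃ b, f b = j) then X h.1.choose h.2.choose else 0 with hZ
  have hZf : ∀ a b, Z (f a) (f b) = X a b := by
    intro a b
    have h : (∃ a', f a' = f a) ∧ (∃ b', f b' = f b) := ⟨⟨a, rfl⟩, ⟨b, rfl⟩⟩
    simp only [hZ, Matrix.of_apply]
    rw [dif_pos h]
    congr 1
    · exact finj h.1.choose_spec
    · exact finj h.2.choose_spec
  have hin : InMPlus Γ Z := by
    intro K hK
    set K' : Finset (Fin 3) := Finset.univ.filter fun a => f a ∈ K with hK'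
    have hcl : (K0 3).IsClique (K' : Set (Fin 3)) := by
      intro a ha b hb hab
      have ha' : f a ∈ K := by
        have := Finset.mem_coe.1 ha
        simpa [hK'] using this
      have hb' : f b ∈ K := by
        have := Finset.mem_coe.1 hb
        simpa [hK'] using this
      have hadj : Γ.Adj (f a) (f b) :=
        hK (Finset.mem_coe.2 ha') (Finset.mem_coe.2 hb') (fun h => hab (finj h))
      refine ⟨hab, ?_, ?_⟩
      · rintro ⟨h1, h2⟩
        have e1 : a = 0 := Fin.ext h1
        have e2 : b = 2 := Fin.ext (by simpa using h2)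
        rw [e1, e2] at hadj
        exact hnuw hadj
      · rintro ⟨h1, h2⟩
        have e1 : b = 0 := Fin.ext h1
        have e2 : a = 2 := Fin.ext (by simpa using h2)
        rw [e1, e2] at hadj
        exact hnuw hadj.symm
    have hpos := hX K' hcl
    refine hpos.extend (f := fun a : K' => (⟨f a.1, by
      exact (Finset.mem_filter.1 a.2).2⟩ : K)) ?_ ?_ ?_
    · intro a b hab
      apply Subtype.ext
      apply finj
      exact congrArg Subtype.val hab
    · intro a b
      exact hZf a.1 b.1
    · intro k l hkl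
      simp only [Matrix.submatrix_apply, hZ, Matrix.of_apply]
      rw [dif_neg]
      rintro ⟨⟨a, ha⟩, ⟨b, hb⟩⟩
      rcases hkl with h1 | h1
      · exact h1 ⟨a, by simp [hK', ha]⟩ (Subtype.ext ha)
      · exact h1 ⟨b, by simp [hK', hb]⟩ (Subtype.ext hb)
  obtain ⟨Y, hY1, hY2⟩ := h Z hin
  refine ⟨Y.submatrix f f, hY1.submatrix f, ?_⟩
  intro i j hij
  rw [Matrix.submatrix_apply, hY2, hZf]
  rcases hij with rfl | h1
  · exact Or.inl rfl
  · right
    obtain ⟨h2, h3, h4⟩ := h1
    fin_cases i <;> fin_cases j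
    · exact absurd rfl h2
    · exact huv
    · exact absurd ⟨rfl, rfl⟩ h3
    · exact huv.symm
    · exact absurd rfl h2
    · exact hvw
    · exact absurd ⟨rfl, rfl⟩ h4
    · exact hvw.symm
    · exact absurd rfl h2

end Pool.Agent.MP_a554a0
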