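import Pool.Agent.Lib.MP_a554a0_an.Mask

set_option autoImplicit false

open Matrix

namespace Pool.Agent.MP_a554a0

section NonUnital

variable {A : Type*} [NonUnitalCStarAlgebra A] [PartialOrder A] [StarOrderedRing A]

/-! ### two by two blocks -/

lemma mpos_block {ρ μ : Type*} [Fintype ρ] [Fintype μ] (U V : Matrix ρ μ A) :
    MPos !![Uᴴ * U, Uᴴ * V; Vᴴ * U, Vᴴ * V] := by
  rw [← mpos_flat_iff]
  have : flat !![Uᴴ * U, Uᴴ * V; Vᴴ * U, Vᴴ * V]
      = (Matrix.of fun (r : ρ) (a : Fin 2 × μ) => if a.1 = 0 then U r a.2 else V r a.2)ᴴ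
        * (Matrix.of fun (r : ρ) (a : Fin 2 × μ) => if a.1 = 0 then U r a.2 else V r a.2) := by
    ext ⟨k, i⟩ ⟨l, j⟩
    fin_cases k <;> fin_cases l <;>
      simp [flat, Matrix.mul_apply, Matrix.conjTranspose_apply]
  rw [this]
  exact gram _

omit [PartialOrder A] [StarOrderedRing A] in
lemma exists_block {μ : Type*} [Fintype μ] {a b c d : Matrix μ μ A} (h : MPos !![a, b; c, d]) :
    ∃ U V : Matrix (Fin 2 × μ) μ A, Uᴴ * U = a ∧ Uᴴ * V = b ∧ Vᴴ * V = d := by
  obtain ⟨Y, hY⟩ := (mpos_flat_iff _).2 h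
  refine ⟨Matrix.of fun r i => Y r (0, i), Matrix.of fun r i => Y r (1, i), ?_, ?_, ?_⟩
  · ext i j
    have := congrFun (congrFun hY (0, i)) (0, j)
    simp only [flat, Matrix.of_apply, Matrix.mul_apply, Matrix.conjTranspose_apply] at this ⊢
    rw [← this]; rfl
  · ext i j
    have := congrFun (congrFun hY (0, i)) (1, j)
    simp only [flat, Matrix.of_apply, Matrix.mul_apply, Matrix.conjTranspose_apply] at this ⊢
    rw [← this]; rfl
  · ext i j
    have := congrFun (congrFun hY (1, i)) (1, j)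
    simp only [flat, Matrix.of_apply, Matrix.mul_apply, Matrix.conjTranspose_apply] at this ⊢
    rw [← this]; rfl

/-! ### from completions to the local SAW* condition -/

/-- all `K_n^{(0)}` completable implies the local SAW* condition for matrices -/
theorem local_of_K0 (hK : ∀ n, 3 ≤ n → InG A (K0 n)) (m : ℕ) : IsLocalSAWStar (Matrix (Fin m) (Fin m) A) := by
  classical
  intro h x y hxy
  rw [Matrix.star_eq_conjTranspose] at hxy
  have hyx : yᴴ * x = 0 := by
    have := congrArg Matrix.conjTranspose hxy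
    simpa using this
  set Lc : Fin 4 → Matrix (Fin m) (Fin m) A := ![h, x, -y, 0] with hLc
  set Rc : Fin 4 → Matrix (Fin m) (Fin m) A := ![0, x, y, h] with hRc
  set L : Matrix (Fin m) (Fin 4 × Fin m) A := Matrix.of fun i a => Lc a.1 i a.2 with hL
  set R : Matrix (Fin m) (Fin 4 × Fin m) A := Matrix.of fun i a => Rc a.1 i a.2 with hR
  have hLL : ∀ a b i j, (Lᴴ * L) (a, i) (b, j) = ((Lc a)ᴴ * Lc b) i j := fun a b i j => rfl
  have hRR : ∀ a b i j, (Rᴴ * R) (a, i) (b, j) = ((Rc a)ᴴ * Rc b) i j := fun a b i j => rfl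
  set p : Fin 4 × Fin m → Prop := fun a => a.1 ≠ 3 with hp
  set q : Fin 4 × Fin m → Prop := fun a => a.1 ≠ 0 with hq
  set X : Matrix (Fin 4 × Fin m) (Fin 4 × Fin m) A := Matrix.of fun a b =>
    if a.1 ≠ 3 ∧ b.1 ≠ 3 then (Lᴴ * L) a b else (Rᴴ * R) a b with hX
  have hagree : ∀ a b : Fin 4, a ≠ 3 → b ≠ 3 → a ≠ 0 → b ≠ 0 → (Lc a)ᴴ * Lc b = (Rc a)ᴴ * Rc b := by
    intro a b ha3 hb3 ha0 hb0
    fin_cases a <;> fin_cases b <;> simp_all
  have e1 : mask p X = Lᴴ * L := by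
    ext ⟨a, i⟩ ⟨b, j⟩
    simp only [mask, Matrix.of_apply, hX, hp]
    split_ifs with h1
    · rfl
    · rw [hLL]
      by_cases ha : a = 3
      · subst ha; simp [hLc]
      · have hb : b = 3 := by
          by_contra hb; exact h1 ⟨ha, hb⟩
        subst hb; simp [hLc]
  have e2 : mask q X = Rᴴ * R := by
    ext ⟨a, i⟩ ⟨b, j⟩
    simp only [mask, Matrix.of_apply, hX, hq]
    split_ifs with h1 h2
    · rw [hLL, hRR, hagree a b h2.1 h2.2 h1.1 h1.2]
    · rfl
    · rw [hRR]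
      by_cases ha : a = 0
      · subst ha; simp [hRc]
      · have hb : b = 0 := by
          by_contra hb; exact h1 ⟨ha, hb⟩
        subst hb; simp [hRc]
  obtain ⟨Y, hY1, hY2⟩ := CC_all hK (Finset.univ.filter fun i => q i ∧ ¬ p i) p q (by intro i; simp) X
    (e1 ▸ gram L) (e2 ▸ gram R)
  have hfull : mask (fun i => p i ∨ q i) Y = Y := by
    ext ⟨a, i⟩ ⟨b, j⟩
    simp only [mask, Matrix.of_apply, hp, hq]
    rw [if_pos]
    constructor
    · by_cases ha : a = 3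
      · right; rw [ha]; decide
      · left; exact ha
    · by_cases hb : b = 3
      · right; rw [hb]; decide
      · left; exact hb
  rw [hfull] at hY1
  obtain ⟨G, hG⟩ := hY1
  set col : Fin 4 → Matrix (Fin 4 × Fin m) (Fin m) A := fun a => Matrix.of fun r i => G r (a, i) with hcol
  have hD : ∀ a b i j, ((col a)ᴴ * col b) i j = Y (a, i) (b, j) := by
    intro a b i j
    rw [hG]; rfl
  have hDL : ∀ a b : Fin 4, a ≠ 3 → b ≠ 3 → (col a)ᴴ * col b = (Lc a)ᴴ * Lc b := by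
    intro a b ha hb
    ext i j
    rw [hD, hY2 _ _ (Or.inl ⟨ha, hb⟩)]
    simp only [hX, Matrix.of_apply]
    rw [if_pos ⟨ha, hb⟩]; rfl
  have hDR : ∀ a b : Fin 4, a ≠ 0 → b ≠ 0 → (col a)ᴴ * col b = (Rc a)ᴴ * Rc b := by
    intro a b ha hb
    ext i j
    rw [hD, hY2 _ _ (Or.inr ⟨ha, hb⟩)]
    simp only [hX, Matrix.of_apply]
    split_ifs with h1
    · rw [hLL, hagree a b h1.1 h1.2 ha hb]
    · rfl
  have d00 : (col 0)ᴴ * col 0 = hᴴ * h := by rw [hDL 0 0 (by decide) (by decide)]; simp [hLc]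
  have d01 : (col 0)ᴴ * col 1 = hᴴ * x := by rw [hDL 0 1 (by decide) (by decide)]; simp [hLc]
  have d02 : (col 0)ᴴ * col 2 = -(hᴴ * y) := by rw [hDL 0 2 (by decide) (by decide)]; simp [hLc]
  have d11 : (col 1)ᴴ * col 1 = xᴴ * x := by rw [hDL 1 1 (by decide) (by decide)]; simp [hLc]
  have d22 : (col 2)ᴴ * col 2 = yᴴ * y := by rw [hDR 2 2 (by decide) (by decide)]; simp [hRc]
  have d31 : (col 3)ᴴ * col 1 = hᴴ * x := by rw [hDR 3 1 (by decide) (by decide)]; simp [hRc]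
  have d32 : (col 3)ᴴ * col 2 = hᴴ * y := by rw [hDR 3 2 (by decide) (by decide)]; simp [hRc]
  have d33 : (col 3)ᴴ * col 3 = hᴴ * h := by rw [hDR 3 3 (by decide) (by decide)]; simp [hRc]
  set U : Matrix (Fin 4 × Fin m) (Fin m) A := (1 / 2 : ℂ) • (col 0 + col 3) with hU
  set U' : Matrix (Fin 4 × Fin m) (Fin m) A := (1 / 2 : ℂ) • (col 3 - col 0) with hU'
  have hstar : star (1 / 2 : ℂ) = 1 / 2 := by simp
  have u1 : Uᴴ * U = (1 / 4 : ℂ) • (hᴴ * h + (col 0)ᴴ * col 3 + (col 3)ᴴ * col 0 + hᴴ * h) := by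
    rw [hU, Matrix.conjTranspose_smul, hstar, Matrix.smul_mul, Matrix.mul_smul, smul_smul,
      Matrix.conjTranspose_add, Matrix.add_mul, Matrix.mul_add, Matrix.mul_add, d00, d33,
      show (1 / 2 : ℂ) * (1 / 2) = 1 / 4 by norm_num]
    congr 1
    abel
  have u2 : U'ᴴ * U' = (1 / 4 : ℂ) • (hᴴ * h - (col 0)ᴴ * col 3 - (col 3)ᴴ * col 0 + hᴴ * h) := by
    rw [hU', Matrix.conjTranspose_smul, hstar, Matrix.smul_mul, Matrix.mul_smul, smul_smul,
      Matrix.conjTranspose_sub, Matrix.sub_mul, Matrix.mul_sub, Matrix.mul_sub, d00, d33,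
      show (1 / 2 : ℂ) * (1 / 2) = 1 / 4 by norm_num]
    congr 1
    abel
  have hsum : Uᴴ * U + U'ᴴ * U' = hᴴ * h := by
    rw [u1, u2, ← smul_add]
    have : hᴴ * h + (col 0)ᴴ * col 3 + (col 3)ᴴ * col 0 + hᴴ * h
        + (hᴴ * h - (col 0)ᴴ * col 3 - (col 3)ᴴ * col 0 + hᴴ * h) = (4 : ℂ) • (hᴴ * h) := by
      have h4 : (4 : ℂ) • (hᴴ * h) = hᴴ * h + hᴴ * h + hᴴ * h + hᴴ * h := by
        rw [show (4 : ℂ) = 1 + 1 + 1 + 1 by norm_num, add_smul, add_smul, add_smul, one_smul]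
      rw [h4]; abel
    rw [this, smul_smul]
    norm_num
  have u3 : Uᴴ * col 1 = hᴴ * x := by
    rw [hU, Matrix.conjTranspose_smul, hstar, Matrix.smul_mul, Matrix.conjTranspose_add, Matrix.add_mul,
      d01, d31, ← two_smul ℂ, smul_smul]
    norm_num
  have u4 : U'ᴴ * col 2 = hᴴ * y := by
    rw [hU', Matrix.conjTranspose_smul, hstar, Matrix.smul_mul, Matrix.conjTranspose_sub, Matrix.sub_mul,
      d02, d32, sub_neg_eq_add, ← two_smul ℂ, smul_smul]
    norm_num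
  have u3' : (col 1)ᴴ * U = xᴴ * h := by
    have := congrArg Matrix.conjTranspose u3
    simpa using this
  have u4' : (col 2)ᴴ * U' = yᴴ * h := by
    have := congrArg Matrix.conjTranspose u4
    simpa using this
  refine ⟨Uᴴ * U, ?_, ?_⟩
  · have := mpos_block U (col 1)
    rw [u3, u3', d11] at this
    exact this
  · have := mpos_block U' (col 2)
    rw [u4, u4', d22] at this
    have e : U'ᴴ * U' = hᴴ * h - Uᴴ * U := by rw [← hsum]; abel
    rw [e] at this
    exact this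

end NonUnital

end Pool.Agent.MP_a554a0
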