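import Pool.Agent.Lib.MP_a554a0_an.Pos

set_option autoImplicit false

open Matrix

namespace Pool.Agent.MP_a554a0

section NonUnital

variable {A : Type*} [NonUnitalCStarAlgebra A] [PartialOrder A] [StarOrderedRing A]

/-! ### nested matrices -/

/-- flattening a matrix of matrices -/
def flat {κ μ : Type*} (N : Matrix κ κ (Matrix μ μ A)) : Matrix (κ × μ) (κ × μ) A :=
  Matrix.of fun a b => N a.1 b.1 a.2 b.2

omit [PartialOrder A] [StarOrderedRing A] in
lemma flat_gram {κ μ : Type*} [Fintype κ] [Fintype μ] (Y : Matrix κ κ (Matrix μ μ A)) :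
    flat (Yᴴ * Y) = (flat Y)ᴴ * flat Y := by
  ext ⟨k, i⟩ ⟨l, j⟩
  simp only [flat, Matrix.of_apply, Matrix.mul_apply, Fintype.sum_prod_type, Matrix.conjTranspose_apply]
  rw [Matrix.sum_apply]
  refine Finset.sum_congr rfl fun a _ => ?_
  rw [Matrix.mul_apply]
  rfl

omit [PartialOrder A] [StarOrderedRing A] in
lemma mpos_flat_iff {κ μ : Type*} [Fintype κ] [Fintype μ] (N : Matrix κ κ (Matrix μ μ A)) :
    MPos (flat N) ↔ MPos N := by
  constructor
  · rintro ⟨Y, hY⟩
    refine ⟨Matrix.of fun k l => Matrix.of fun i j => Y (k, i) (l, j), ?_⟩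
    have h1 : flat N = flat ((Matrix.of fun k l => Matrix.of fun i j => Y (k, i) (l, j))ᴴ
        * (Matrix.of fun k l => Matrix.of fun i j => Y (k, i) (l, j))) := by
      rw [flat_gram, hY]
      rfl
    ext k l i j
    exact congrFun (congrFun h1 (k, i)) (l, j)
  · rintro ⟨Y, rfl⟩
    exact ⟨flat Y, flat_gram Y⟩

/-! ### masks -/

open Classical in
/-- the part of a matrix supported on `p` -/
noncomputable def mask {ι : Type*} (p : ι → Prop) (X : Matrix ι ι A) : Matrix ι ι A :=
  Matrix.of fun i j => if p i ∧ p j then X i j else 0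

omit [PartialOrder A] [StarOrderedRing A] in
lemma mask_congr {ι : Type*} {p : ι → Prop} {X Y : Matrix ι ι A} (h : ∀ i j, p i → p j → X i j = Y i j) :
    mask p X = mask p Y := by
  ext i j
  simp only [mask, Matrix.of_apply]
  split_ifs with h1
  · exact h i j h1.1 h1.2
  · rfl

/-- the two clique completion property for `p` and `q` -/
def CC {ι : Type*} (A : Type*) [NonUnitalCStarAlgebra A] [Fintype ι] (p q : ι → Prop) : Prop :=
  ∀ X : Matrix ι ι A, MPos (mask p X) → MPos (mask q X) →
    ∃ Y : Matrix ι ι A, MPos (mask (fun i => p i ∨ q i) Y) ∧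
      ∀ i j, ((p i ∧ p j) ∨ (q i ∧ q j)) → Y i j = X i j

omit [PartialOrder A] [StarOrderedRing A] in
lemma CC_of_imp_left {ι : Type*} [Fintype ι] {p q : ι → Prop} (h : ∀ i, p i → q i) : CC A p q := by
  intro X _ hq
  refine ⟨X, ?_, fun _ _ _ => rfl⟩
  have : (fun i => p i ∨ q i) = q := by
    funext i; exact propext ⟨fun h' => h'.elim (h i) id, Or.inr⟩
  rw [this]; exact hq

omit [PartialOrder A] [StarOrderedRing A] in
lemma CC_of_imp_right {ι : Type*} [Fintype ι] {p q : ι → Prop} (h : ∀ i, q i → p i) : CC A p q := by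
  intro X hp _
  refine ⟨X, ?_, fun _ _ _ => rfl⟩
  have : (fun i => p i ∨ q i) = p := by
    funext i; exact propext ⟨fun h' => h'.elim id (h i), Or.inl⟩
  rw [this]; exact hp

omit [PartialOrder A] [StarOrderedRing A] in
lemma CC_symm {ι : Type*} [Fintype ι] {p q : ι → Prop} (h : CC A p q) : CC A q p := by
  intro X hq hp
  obtain ⟨Y, h1, h2⟩ := h X hp hq
  refine ⟨Y, ?_, fun i j hij => h2 i j hij.symm⟩
  have : (fun i => q i ∨ p i) = (fun i => p i ∨ q i) := by
    funext i; exact propext or_comm
  rw [this]; exact h1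

/-- base case: one vertex on each side -/
lemma CC_base (hK : ∀ n, 3 ≤ n → InG A (K0 n)) {ι : Type*} [Fintype ι] {p q : ι → Prop} {w z : ι}
    (hw : p w ∧ ¬ q w) (hz : q z ∧ ¬ p z) (hp : ∀ i, p i → ¬ q i → i = w) (hq : ∀ i, q i → ¬ p i → i = z) :
    CC A p q := by
  classical
  intro X hX1 hX2
  by_cases hM : ∃ i, p i ∧ q i
  · -- enumerate the middle
    set M := {i : ι // p i ∧ q i} with hMdef
    set k := Fintype.card M with hk
    have hk1 : 1 ≤ k := by
      obtain ⟨i, hi⟩ := hM
      exact Fintype.card_pos_iff.2 ⟨⟨i, hi⟩⟩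
    let e : Fin k ≃ M := (Fintype.equivFin M).symm
    -- the embedding
    let f : Fin (k + 2) → ι := fun a =>
      if h0 : (a : ℕ) = 0 then w else if h1 : (a : ℕ) = k + 1 then z
        else (e ⟨a - 1, by have := a.2; omega⟩).1
    have f0 : ∀ a : Fin (k + 2), (a : ℕ) = 0 → f a = w := fun a h => dif_pos h
    have f1 : ∀ a : Fin (k + 2), (a : ℕ) = k + 1 → f a = z := fun a h => by
      show (if h0 : (a : ℕ) = 0 then w else if h1 : (a : ℕ) = k + 1 then z
        else (e ⟨a - 1, by have := a.2; omega⟩).1) = z
      rw [dif_neg (by omega), dif_pos h]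
    have fm : ∀ a : Fin (k + 2), ∀ h0 : (a : ℕ) ≠ 0, ∀ h1 : (a : ℕ) ≠ k + 1,
        f a = (e ⟨a - 1, by have := a.2; omega⟩).1 := fun a h0 h1 => by
      show (if h0 : (a : ℕ) = 0 then w else if h1 : (a : ℕ) = k + 1 then z
        else (e ⟨a - 1, by have := a.2; omega⟩).1) = _
      rw [dif_neg h0, dif_neg h1]
    have fp : ∀ a : Fin (k + 2), (a : ℕ) ≠ k + 1 → p (f a) := by
      intro a ha
      by_cases h0 : (a : ℕ) = 0
      · rw [f0 a h0]; exact hw.1
      · rw [fm a h0 ha]; exact (e _).2.1
    have fq : ∀ a : Fin (k + 2), (a : ℕ) ≠ 0 → q (f a) := by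
      intro a ha
      by_cases h0 : (a : ℕ) = k + 1
      · rw [f1 a h0]; exact hz.1
      · rw [fm a ha h0]; exact (e _).2.2
    have finj : Function.Injective f := by
      intro a b hab
      by_cases a0 : (a : ℕ) = 0
      · by_cases b0 : (b : ℕ) = 0
        · exact Fin.ext (by omega)
        · exfalso
          have := fq b b0
          rw [← hab, f0 a a0] at this
          exact hw.2 this
      · by_cases b0 : (b : ℕ) = 0
        · exfalso
          have := fq a a0
          rw [hab, f0 b b0] at this
          exact hw.2 this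
        · by_cases a1 : (a : ℕ) = k + 1
          · by_cases b1 : (b : ℕ) = k + 1
            · exact Fin.ext (by omega)
            · exfalso
              have := fp b b1
              rw [← hab, f1 a a1] at this
              exact hz.2 this
          · by_cases b1 : (b : ℕ) = k + 1
            · exfalso
              have := fp a a1
              rw [hab, f1 b b1] at this
              exact hz.2 this
            · rw [fm a a0 a1, fm b b0 b1] at hab
              have h2 := e.injective (Subtype.ext hab)
              have h3 : (a : ℕ) - 1 = b - 1 := congrArg Fin.val h2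
              exact Fin.ext (by omega)
    have fsurj : ∀ i, p i ∨ q i → ∃ a, f a = i := by
      intro i hi
      by_cases hpi : p i
      · by_cases hqi : q i
        · refine ⟨⟨(e.symm ⟨i, hpi, hqi⟩ : ℕ) + 1, by omega⟩, ?_⟩
          rw [fm _ (by simp) (by simp; omega)]
          simp
        · exact ⟨⟨0, by omega⟩, by rw [f0 _ rfl]; exact (hp i hpi hqi).symm⟩
      · have hqi : q i := hi.resolve_left hpi
        exact ⟨⟨k + 1, by omega⟩, by rw [f1 _ rfl]; exact (hq i hqi hpi).symm⟩
    have hin : InMPlus (K0 (k + 2)) (X.submatrix f f) := by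
      intro K hK'
      by_cases hl : ∃ a ∈ K, (a : ℕ) = k + 1
      · -- no zero
        obtain ⟨a, haK, ha⟩ := hl
        have hno : ∀ b ∈ K, (b : ℕ) ≠ 0 := by
          intro b hb hb0
          have hne : b ≠ a := fun h => by rw [h] at hb0; omega
          have := hK' (Finset.mem_coe.2 hb) (Finset.mem_coe.2 haK) hne
          exact this.2.1 ⟨hb0, by omega⟩
        have h2 := hX2.submatrix (fun i : K => f (i : Fin (k + 2)))
        convert h2 using 1
        ext i j
        simp only [Matrix.submatrix_apply, mask, Matrix.of_apply]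
        rw [if_pos ⟨fq _ (hno _ i.2), fq _ (hno _ j.2)⟩]
      · push Not at hl
        have h2 := hX1.submatrix (fun i : K => f (i : Fin (k + 2)))
        convert h2 using 1
        ext i j
        simp only [Matrix.submatrix_apply, mask, Matrix.of_apply]
        rw [if_pos ⟨fp _ (hl _ i.2), fp _ (hl _ j.2)⟩]
    obtain ⟨Y, hY1, hY2⟩ := hK (k + 2) (by omega) _ hin
    -- extend by zero
    set Z : Matrix ι ι A := Matrix.of fun i j =>
      if h : (∃ a, f a = i) ∧ (∃ b, f b = j) then Y h.1.choose h.2.choose else 0 with hZ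
    have hZf : ∀ a b, Z (f a) (f b) = Y a b := by
      intro a b
      have h : (∃ a', f a' = f a) ∧ (∃ b', f b' = f b) := ⟨⟨a, rfl⟩, ⟨b, rfl⟩⟩
      simp only [hZ, Matrix.of_apply]
      rw [dif_pos h]
      congr 1
      · exact finj h.1.choose_spec
      · exact finj h.2.choose_spec
    refine ⟨Z, ?_, ?_⟩
    · have hZpos : MPos Z := hY1.extend finj hZf (by
        intro i j hij
        simp only [hZ, Matrix.of_apply]
        rw [dif_neg]
        rintro ⟨⟨a, ha⟩, ⟨b, hb⟩⟩
        rcases hij with h | h
        · exact h a ha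
        · exact h b hb)
      have : mask (fun i => p i ∨ q i) Z = Z := by
        ext i j
        simp only [mask, Matrix.of_apply]
        split_ifs with h
        · rfl
        · simp only [hZ, Matrix.of_apply]
          rw [dif_neg]
          rintro ⟨⟨a, ha⟩, ⟨b, hb⟩⟩
          apply h
          constructor
          · rw [← ha]
            by_cases h0 : (a : ℕ) = 0
            · exact Or.inl (fp a (by omega))
            · exact Or.inr (fq a h0)
          · rw [← hb]
            by_cases h0 : (b : ℕ) = 0
            · exact Or.inl (fp b (by omega))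
            · exact Or.inr (fq b h0)
      rw [this]; exact hZpos
    · intro i j hij
      have hi : p i ∨ q i := hij.elim (fun h => Or.inl h.1) (fun h => Or.inr h.1)
      have hj : p j ∨ q j := hij.elim (fun h => Or.inl h.2) (fun h => Or.inr h.2)
      obtain ⟨a, rfl⟩ := fsurj i hi
      obtain ⟨b, rfl⟩ := fsurj j hj
      rw [hZf]
      have := hY2 a b
      rw [this]
      · rfl
      · by_cases hab : a = b
        · exact Or.inl hab
        · right
          refine ⟨hab, ?_, ?_⟩
          · rintro ⟨a0, b1⟩
            have hb1 : (b : ℕ) = k + 1 := by omega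
            rw [f0 a a0, f1 b hb1] at hij
            rcases hij with h | h
            · exact hz.2 h.2
            · exact hw.2 h.1
          · rintro ⟨b0, a1⟩
            have ha1 : (a : ℕ) = k + 1 := by omega
            rw [f0 b b0, f1 a ha1] at hij
            rcases hij with h | h
            · exact hz.2 h.1
            · exact hw.2 h.2
  · -- no middle
    push Not at hM
    refine ⟨mask p X + mask q X, ?_, ?_⟩
    · have : mask (fun i => p i ∨ q i) (mask p X + mask q X) = mask p X + mask q X := by
        ext i j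
        simp only [mask, Matrix.of_apply, Matrix.add_apply]
        by_cases h1 : p i ∧ p j
        · rw [if_pos ⟨Or.inl h1.1, Or.inl h1.2⟩]
        · by_cases h2 : q i ∧ q j
          · rw [if_pos ⟨Or.inr h2.1, Or.inr h2.2⟩]
          · rw [if_neg h1, if_neg h2]
            split_ifs <;> simp
      rw [this]
      exact hX1.add hX2
    · intro i j hij
      simp only [mask, Matrix.of_apply, Matrix.add_apply]
      rcases hij with h | h
      · rw [if_pos h, if_neg (fun h' => hM i h.1 h'.1), add_zero]
      · rw [if_neg (fun h' => hM i h'.1 h.1), if_pos h, zero_add]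

/-- one vertex on the right, many on the left -/
lemma CC_one (hK : ∀ n, 3 ≤ n → InG A (K0 n)) {ι : Type*} [Fintype ι] [DecidableEq ι] {z : ι} {q : ι → Prop} (hqz : q z)
    (s : Finset ι) : ∀ p : ι → Prop, (∀ i, p i ∧ ¬ q i ↔ i ∈ s) → (¬ p z) → (∀ i, q i → ¬ p i → i = z) →
    CC A p q := by
  classical
  induction s using Finset.induction_on with
  | empty =>
    intro p hp _ _
    apply CC_of_imp_left
    intro i hi
    by_contra hn
    exact absurd ((hp i).1 ⟨hi, hn⟩) (Finset.notMem_empty i)
  | insert w s hws ih =>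
    intro p hp hpz hq X hX1 hX2
    have hw := (hp w).2 (Finset.mem_insert_self w s)
    set p' : ι → Prop := fun i => p i ∧ i ≠ w with hp'
    have h1 : ∀ i, p' i ∧ ¬ q i ↔ i ∈ s := by
      intro i
      constructor
      · rintro ⟨⟨a, b⟩, c⟩
        exact (Finset.mem_insert.1 ((hp i).1 ⟨a, c⟩)).resolve_left b
      · intro hi
        have h2 := (hp i).2 (Finset.mem_insert_of_mem hi)
        exact ⟨⟨h2.1, fun h => hws (h ▸ hi)⟩, h2.2⟩
    have h2 : ¬ p' z := fun h => hpz h.1
    have h3 : ∀ i, q i → ¬ p' i → i = z := by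
      intro i hqi hpi
      apply hq i hqi
      intro hpi'
      apply hpi
      exact ⟨hpi', fun h => hw.2 (h ▸ hqi)⟩
    have hX1' : MPos (mask p' X) := by
      have h4 : mask p' X = mask p' (mask p X) := by
        apply mask_congr
        intro i j hi hj
        simp only [mask, Matrix.of_apply]
        rw [if_pos ⟨hi.1, hj.1⟩]
      obtain ⟨G, hG⟩ := hX1
      refine ⟨Matrix.of fun i j => if p' j then G i j else 0, ?_⟩
      rw [h4, hG]
      ext i j
      simp only [mask, Matrix.of_apply, Matrix.mul_apply, Matrix.conjTranspose_apply]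
      by_cases hi : p' i <;> by_cases hj : p' j <;> simp [hi, hj]
    obtain ⟨Y', hY1, hY2⟩ := ih p' h1 h2 h3 X hX1' hX2
    set X'' : Matrix ι ι A := Matrix.of fun i j => if i = w ∨ j = w then X i j else Y' i j with hX''
    have e1 : mask p X'' = mask p X := by
      apply mask_congr
      intro i j hi hj
      simp only [hX'', Matrix.of_apply]
      split_ifs with h
      · rfl
      · push Not at h
        exact hY2 i j (Or.inl ⟨⟨hi, h.1⟩, ⟨hj, h.2⟩⟩)
    have hnw : ¬ (p' w ∨ q w) := by
      rintro (h | h)
      · exact h.2 rfl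
      · exact hw.2 h
    have e2 : mask (fun i => p' i ∨ q i) X'' = mask (fun i => p' i ∨ q i) Y' := by
      apply mask_congr
      intro i j hi hj
      simp only [hX'', Matrix.of_apply]
      rw [if_neg]
      rintro (h | h)
      · exact hnw (h ▸ hi)
      · exact hnw (h ▸ hj)
    have hbase : CC A p (fun i => p' i ∨ q i) := by
      refine CC_base hK (w := w) (z := z) ⟨hw.1, hnw⟩ ⟨Or.inr hqz, hpz⟩ ?_ ?_
      · intro i hi hni
        by_contra hne
        exact hni (Or.inl ⟨hi, hne⟩)
      · intro i hi hni
        rcases hi with h | h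
        · exact absurd h.1 hni
        · exact hq i h hni
    obtain ⟨Y, hY3, hY4⟩ := hbase X'' (e1 ▸ hX1) (e2 ▸ hY1)
    refine ⟨Y, ?_, ?_⟩
    · have : (fun i => p i ∨ (p' i ∨ q i)) = (fun i => p i ∨ q i) := by
        funext i
        apply propext
        constructor
        · rintro (h | h | h)
          · exact Or.inl h
          · exact Or.inl h.1
          · exact Or.inr h
        · rintro (h | h)
          · exact Or.inl h
          · exact Or.inr (Or.inr h)
      rw [← this]; exact hY3
    · intro i j hij
      rcases hij with h | h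
      · rw [hY4 i j (Or.inl h)]
        have := congrFun (congrFun e1 i) j
        simp only [mask, Matrix.of_apply] at this
        rwa [if_pos h, if_pos h] at this
      · rw [hY4 i j (Or.inr ⟨Or.inr h.1, Or.inr h.2⟩)]
        simp only [hX'', Matrix.of_apply]
        rw [if_neg]
        · exact hY2 i j (Or.inr h)
        · rintro (h' | h')
          · exact hw.2 (h' ▸ h.1)
          · exact hw.2 (h' ▸ h.2)

omit [PartialOrder A] [StarOrderedRing A] in
lemma MPos.mask_mono {ι : Type*} [Fintype ι] {p q : ι → Prop} (h : ∀ i, p i → q i) {X : Matrix ι ι A}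
    (hX : MPos (mask q X)) : MPos (mask p X) := by
  classical
  have h4 : mask p X = mask p (mask q X) := by
    apply mask_congr
    intro i j hi hj
    simp only [mask, Matrix.of_apply]
    rw [if_pos ⟨h i hi, h j hj⟩]
  obtain ⟨G, hG⟩ := hX
  refine ⟨Matrix.of fun i j => if p j then G i j else 0, ?_⟩
  rw [h4, hG]
  ext i j
  simp only [mask, Matrix.of_apply, Matrix.mul_apply, Matrix.conjTranspose_apply]
  by_cases hi : p i <;> by_cases hj : p j <;> simp [hi, hj]

/-- the general two clique completion property -/
lemma CC_all (hK : ∀ n, 3 ≤ n → InG A (K0 n)) {ι : Type*} [Fintype ι] [DecidableEq ι]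
    (s : Finset ι) : ∀ p q : ι → Prop, (∀ i, q i ∧ ¬ p i ↔ i ∈ s) → CC A p q := by
  classical
  induction s using Finset.induction_on with
  | empty =>
    intro p q hq
    apply CC_of_imp_right
    intro i hi
    by_contra hn
    exact absurd ((hq i).1 ⟨hi, hn⟩) (Finset.notMem_empty i)
  | insert z s hzs ih =>
    intro p q hq X hX1 hX2
    have hz := (hq z).2 (Finset.mem_insert_self z s)
    set q' : ι → Prop := fun i => q i ∧ i ≠ z with hq'
    have h1 : ∀ i, q' i ∧ ¬ p i ↔ i ∈ s := by
      intro i
      constructor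
      · rintro ⟨⟨a, b⟩, c⟩
        exact (Finset.mem_insert.1 ((hq i).1 ⟨a, c⟩)).resolve_left b
      · intro hi
        have h2 := (hq i).2 (Finset.mem_insert_of_mem hi)
        exact ⟨⟨h2.1, fun h => hzs (h ▸ hi)⟩, h2.2⟩
    obtain ⟨Y', hY1, hY2⟩ := ih p q' h1 X hX1 (hX2.mask_mono fun i hi => hi.1)
    set X'' : Matrix ι ι A := Matrix.of fun i j => if i = z ∨ j = z then X i j else Y' i j with hX''
    have hnz : ¬ (p z ∨ q' z) := by
      rintro (h | h)
      · exact hz.2 h
      · exact h.2 rfl
    have e1 : mask q X'' = mask q X := by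
      apply mask_congr
      intro i j hi hj
      simp only [hX'', Matrix.of_apply]
      split_ifs with h
      · rfl
      · push Not at h
        exact hY2 i j (Or.inr ⟨⟨hi, h.1⟩, ⟨hj, h.2⟩⟩)
    have e2 : mask (fun i => p i ∨ q' i) X'' = mask (fun i => p i ∨ q' i) Y' := by
      apply mask_congr
      intro i j hi hj
      simp only [hX'', Matrix.of_apply]
      rw [if_neg]
      rintro (h | h)
      · exact hnz (h ▸ hi)
      · exact hnz (h ▸ hj)
    have hone : CC A (fun i => p i ∨ q' i) q := by
      refine CC_one hK hz.1 (Finset.univ.filter fun i => (p i ∨ q' i) ∧ ¬ q i) _ ?_ hnz ?_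
      · intro i; simp
      · intro i hi hni
        by_contra hne
        exact hni (Or.inr ⟨hi, hne⟩)
    obtain ⟨Y, hY3, hY4⟩ := hone X'' (e2 ▸ hY1) (e1 ▸ hX2)
    refine ⟨Y, ?_, ?_⟩
    · have : (fun i => (p i ∨ q' i) ∨ q i) = (fun i => p i ∨ q i) := by
        funext i
        apply propext
        constructor
        · rintro ((h | h) | h)
          · exact Or.inl h
          · exact Or.inr h.1
          · exact Or.inr h
        · rintro (h | h)
          · exact Or.inl (Or.inl h)
          · exact Or.inr h
      rw [← this]; exact hY3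
    · intro i j hij
      rcases hij with h | h
      · rw [hY4 i j (Or.inl ⟨Or.inl h.1, Or.inl h.2⟩)]
        simp only [hX'', Matrix.of_apply]
        rw [if_neg]
        · exact hY2 i j (Or.inl h)
        · rintro (h' | h')
          · exact hz.2 (h' ▸ h.1)
          · exact hz.2 (h' ▸ h.2)
      · rw [hY4 i j (Or.inr h)]
        have := congrFun (congrFun e1 i) j
        simp only [mask, Matrix.of_apply] at this
        rwa [if_pos h, if_pos h] at this

end NonUnital

end Pool.Agent.MP_a554a0
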