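import Pool.Agent.Lib.MP_a554a0_an.Rect

set_option autoImplicit false

open Matrix

namespace Pool.Agent.MP_a554a0

section NonUnital

variable {A : Type*} [NonUnitalCStarAlgebra A] [PartialOrder A] [StarOrderedRing A]

omit [PartialOrder A] [StarOrderedRing A] in
/-- two cliques of `K_{k+2}^{(0)}` -/
lemma K0_cliques [PartialOrder A] [StarOrderedRing A] {k : ℕ} {X : Matrix (Fin (k + 2)) (Fin (k + 2)) A}
    (hX : InMPlus (K0 (k + 2)) X) :
    MPos (X.submatrix (Fin.castSucc : Fin (k + 1) → Fin (k + 2)) Fin.castSucc) ∧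
      MPos (X.submatrix (Fin.succ : Fin (k + 1) → Fin (k + 2)) Fin.succ) := by
  classical
  constructor
  · have h := hX (Finset.univ.image (Fin.castSucc : Fin (k + 1) → Fin (k + 2))) (by
      intro a ha b hb hab
      simp only [Finset.coe_image, Finset.coe_univ, Set.image_univ, Set.mem_range] at ha hb
      obtain ⟨a, rfl⟩ := ha
      obtain ⟨b, rfl⟩ := hb
      refine ⟨hab, ?_, ?_⟩
      · rintro ⟨_, h⟩
        have := b.2
        simp at h
        omega
      · rintro ⟨_, h⟩
        have := a.2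
        simp at h
        omega)
    exact h.submatrix (fun a : Fin (k + 1) => ⟨a.castSucc, Finset.mem_image_of_mem _ (Finset.mem_univ a)⟩)
  · have h := hX (Finset.univ.image (Fin.succ : Fin (k + 1) → Fin (k + 2))) (by
      intro a ha b hb hab
      simp only [Finset.coe_image, Finset.coe_univ, Set.image_univ, Set.mem_range] at ha hb
      obtain ⟨a, rfl⟩ := ha
      obtain ⟨b, rfl⟩ := hb
      refine ⟨hab, ?_, ?_⟩
      · rintro ⟨h, _⟩
        simp at h
      · rintro ⟨h, _⟩
        simp at h)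
    exact h.submatrix (fun a : Fin (k + 1) => ⟨a.succ, Finset.mem_image_of_mem _ (Finset.mem_univ a)⟩)

/-- the local SAW* condition for `M_{2(k+1)}(A)` gives `K_{k+2}^{(0)} ∈ G(A)` -/
theorem K0_of_local (k : ℕ)
    (hL : IsLocalSAWStar (Matrix (Fin (2 * (k + 1))) (Fin (2 * (k + 1))) A)) : InG A (K0 (k + 2)) := by
  classical
  intro X hX
  obtain ⟨⟨R, hR⟩, ⟨S, hS⟩⟩ := K0_cliques hX
  have hR' : ∀ a b : Fin (k + 1), ∑ r, star (R r a) * R r b = X a.castSucc b.castSucc := fun a b =>
    (congrFun (congrFun hR a) b).symm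
  have hS' : ∀ a b : Fin (k + 1), ∑ r, star (S r a) * S r b = X a.succ b.succ := fun a b =>
    (congrFun (congrFun hS a) b).symm
  set h : Matrix (Fin (k + 1) ⊕ Fin (k + 1)) (Fin 2) A := Matrix.of fun s c =>
    Sum.elim (fun r => if c = 0 then R r 0 else 0) (fun r => if c = 0 then 0 else S r (Fin.last k)) s with hh
  set x : Matrix (Fin (k + 1) ⊕ Fin (k + 1)) (Fin k) A := Matrix.of fun s m =>
    Sum.elim (fun r => R r m.succ) (fun r => S r m.castSucc) s with hx
  set y : Matrix (Fin (k + 1) ⊕ Fin (k + 1)) (Fin k) A := Matrix.of fun s m =>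
    Sum.elim (fun r => R r m.succ) (fun r => - S r m.castSucc) s with hy
  have hxy : xᴴ * y = 0 := by
    ext m n
    rw [Matrix.mul_apply, Fintype.sum_sum_type]
    simp only [hx, hy, Matrix.conjTranspose_apply, Matrix.of_apply, Sum.elim_inl, Sum.elim_inr, mul_neg,
      Finset.sum_neg_distrib]
    rw [hR', hS', Fin.succ_castSucc, Fin.succ_castSucc]
    simp
  obtain ⟨U, U', V, V', q1, q2, q3, q4, q5⟩ := local_rect hL (σ := Fin (k + 1) ⊕ Fin (k + 1)) (by simp; omega)
    (by simp) (by simp; omega) (by simp; omega) h x y hxy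
  have q2' : Vᴴ * U = xᴴ * h := by
    have := congrArg Matrix.conjTranspose q2
    simpa using this
  have q4' : V'ᴴ * U' = yᴴ * h := by
    have := congrArg Matrix.conjTranspose q4
    simpa using this
  set G1 : Fin 2 × Fin (2 * (k + 1)) → Fin (k + 2) → A := fun r =>
    Fin.cons (U r 0) (Fin.snoc (fun m : Fin k => (1 / 2 : ℂ) • V r m) (U r 1)) with hG1
  set G2 : Fin 2 × Fin (2 * (k + 1)) → Fin (k + 2) → A := fun r =>
    Fin.cons (U' r 0) (Fin.snoc (fun m : Fin k => (1 / 2 : ℂ) • V' r m) (- U' r 1)) with hG2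
  set G : Matrix ((Fin 2 × Fin (2 * (k + 1))) ⊕ (Fin 2 × Fin (2 * (k + 1)))) (Fin (k + 2)) A :=
    Matrix.of fun s c => Sum.elim (fun r => G1 r c) (fun r => G2 r c) s with hG
  have hGG : ∀ i j, (Gᴴ * G) i j = (∑ r, star (G1 r i) * G1 r j) + ∑ r, star (G2 r i) * G2 r j := by
    intro i j
    rw [Matrix.mul_apply, Fintype.sum_sum_type]
    rfl
  have g10 : ∀ r, G1 r 0 = U r 0 := fun r => rfl
  have g20 : ∀ r, G2 r 0 = U' r 0 := fun r => rfl
  have g1l : ∀ r, G1 r (Fin.last k).succ = U r 1 := fun r => by simp [hG1]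
  have g2l : ∀ r, G2 r (Fin.last k).succ = - U' r 1 := fun r => by simp [hG2]
  have g1m : ∀ r (m : Fin k), G1 r m.castSucc.succ = (1 / 2 : ℂ) • V r m := fun r m => by
    simp only [hG1, Fin.cons_succ, Fin.snoc_castSucc]
  have g2m : ∀ r (m : Fin k), G2 r m.castSucc.succ = (1 / 2 : ℂ) • V' r m := fun r m => by
    simp only [hG2, Fin.cons_succ, Fin.snoc_castSucc]
  have hstar : star (1 / 2 : ℂ) = 1 / 2 := by simp
  -- entries of the products
  have hhh0 : (hᴴ * h) 0 0 = X 0 0 := by
    rw [Matrix.mul_apply, Fintype.sum_sum_type]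
    simp only [hh, Matrix.conjTranspose_apply, Matrix.of_apply, Sum.elim_inl, Sum.elim_inr, if_true,
      star_zero, mul_zero, Finset.sum_const_zero, add_zero]
    exact hR' 0 0
  have hhh1 : (hᴴ * h) 1 1 = X (Fin.last k).succ (Fin.last k).succ := by
    rw [Matrix.mul_apply, Fintype.sum_sum_type]
    simp only [hh, Matrix.conjTranspose_apply, Matrix.of_apply, Sum.elim_inl, Sum.elim_inr]
    simp only [one_ne_zero, if_false, star_zero, mul_zero, Finset.sum_const_zero, zero_add]
    exact hS' _ _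
  have hhx0 : ∀ m, (hᴴ * x) 0 m = X 0 m.castSucc.succ := by
    intro m
    rw [Matrix.mul_apply, Fintype.sum_sum_type]
    simp only [hh, hx, Matrix.conjTranspose_apply, Matrix.of_apply, Sum.elim_inl, Sum.elim_inr, if_true,
      star_zero, zero_mul, Finset.sum_const_zero, add_zero]
    rw [Fin.succ_castSucc]
    exact hR' 0 m.succ
  have hhy0 : ∀ m, (hᴴ * y) 0 m = X 0 m.castSucc.succ := by
    intro m
    rw [Matrix.mul_apply, Fintype.sum_sum_type]
    simp only [hh, hy, Matrix.conjTranspose_apply, Matrix.of_apply, Sum.elim_inl, Sum.elim_inr, if_true,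
      star_zero, zero_mul, Finset.sum_const_zero, add_zero]
    rw [Fin.succ_castSucc]
    exact hR' 0 m.succ
  have hhx1 : ∀ m, (hᴴ * x) 1 m = X (Fin.last k).succ m.castSucc.succ := by
    intro m
    rw [Matrix.mul_apply, Fintype.sum_sum_type]
    simp only [hh, hx, Matrix.conjTranspose_apply, Matrix.of_apply, Sum.elim_inl, Sum.elim_inr]
    simp only [one_ne_zero, if_false, star_zero, zero_mul, Finset.sum_const_zero, zero_add]
    exact hS' _ _
  have hhy1 : ∀ m, (hᴴ * y) 1 m = - X (Fin.last k).succ m.castSucc.succ := by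
    intro m
    rw [Matrix.mul_apply, Fintype.sum_sum_type]
    simp only [hh, hy, Matrix.conjTranspose_apply, Matrix.of_apply, Sum.elim_inl, Sum.elim_inr]
    simp only [one_ne_zero, if_false, star_zero, zero_mul, Finset.sum_const_zero, zero_add, mul_neg,
      Finset.sum_neg_distrib]
    rw [hS']
  have hxh0 : ∀ m, (xᴴ * h) m 0 = X m.castSucc.succ 0 := by
    intro m
    rw [Matrix.mul_apply, Fintype.sum_sum_type]
    simp only [hh, hx, Matrix.conjTranspose_apply, Matrix.of_apply, Sum.elim_inl, Sum.elim_inr, if_true,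
      mul_zero, Finset.sum_const_zero, add_zero]
    rw [Fin.succ_castSucc]
    exact hR' m.succ 0
  have hyh0 : ∀ m, (yᴴ * h) m 0 = X m.castSucc.succ 0 := by
    intro m
    rw [Matrix.mul_apply, Fintype.sum_sum_type]
    simp only [hh, hy, Matrix.conjTranspose_apply, Matrix.of_apply, Sum.elim_inl, Sum.elim_inr, if_true,
      mul_zero, Finset.sum_const_zero, add_zero]
    rw [Fin.succ_castSucc]
    exact hR' m.succ 0
  have hxh1 : ∀ m, (xᴴ * h) m 1 = X m.castSucc.succ (Fin.last k).succ := by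
    intro m
    rw [Matrix.mul_apply, Fintype.sum_sum_type]
    simp only [hh, hx, Matrix.conjTranspose_apply, Matrix.of_apply, Sum.elim_inl, Sum.elim_inr]
    simp only [one_ne_zero, if_false, mul_zero, Finset.sum_const_zero, zero_add]
    exact hS' _ _
  have hyh1 : ∀ m, (yᴴ * h) m 1 = - X m.castSucc.succ (Fin.last k).succ := by
    intro m
    rw [Matrix.mul_apply, Fintype.sum_sum_type]
    simp only [hh, hy, Matrix.conjTranspose_apply, Matrix.of_apply, Sum.elim_inl, Sum.elim_inr]
    simp only [one_ne_zero, if_false, mul_zero, Finset.sum_const_zero, zero_add, star_neg, neg_mul,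
      Finset.sum_neg_distrib]
    rw [hS']
  have hxx : ∀ m n, (xᴴ * x) m n = (2 : ℂ) • X m.castSucc.succ n.castSucc.succ := by
    intro m n
    rw [Matrix.mul_apply, Fintype.sum_sum_type]
    simp only [hx, Matrix.conjTranspose_apply, Matrix.of_apply, Sum.elim_inl, Sum.elim_inr]
    rw [hR', hS', Fin.succ_castSucc, Fin.succ_castSucc, two_smul]
  have hyy : ∀ m n, (yᴴ * y) m n = (2 : ℂ) • X m.castSucc.succ n.castSucc.succ := by
    intro m n
    rw [Matrix.mul_apply, Fintype.sum_sum_type]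
    simp only [hy, Matrix.conjTranspose_apply, Matrix.of_apply, Sum.elim_inl, Sum.elim_inr, star_neg,
      mul_neg, neg_mul, neg_neg]
    rw [hR', hS', Fin.succ_castSucc, Fin.succ_castSucc, two_smul]
  refine ⟨Gᴴ * G, gram G, ?_⟩
  intro i j hij
  have tri : ∀ i : Fin (k + 2), i = 0 ∨ (∃ m : Fin k, i = m.castSucc.succ) ∨ i = (Fin.last k).succ := by
    intro i
    refine Fin.cases (Or.inl rfl) (fun i' => ?_) i
    refine Fin.lastCases (Or.inr (Or.inr rfl)) (fun m => Or.inr (Or.inl ⟨m, rfl⟩)) i'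
  have half : ∀ a : A, (1 / 2 : ℂ) • a + (1 / 2 : ℂ) • a = a := by
    intro a
    rw [← add_smul]
    norm_num
  have ent : ∀ {α β : Type} [Fintype α] (P : Matrix (Fin 2 × Fin (2 * (k + 1))) α A)
      (Q : Matrix (Fin 2 × Fin (2 * (k + 1))) β A) (a : α) (b : β),
      ∑ r, star (P r a) * Q r b = (Pᴴ * Q) a b := fun P Q a b => rfl
  rw [hGG]
  rcases tri i with rfl | ⟨m, rfl⟩ | rfl
  · rcases tri j with rfl | ⟨n, rfl⟩ | rfl
    · simp only [g10, g20]
      rw [ent U U 0 0, ent U' U' 0 0, ← Matrix.add_apply, q1, hhh0]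
    · simp only [g10, g20, g1m, g2m, mul_smul_comm, ← Finset.smul_sum]
      rw [ent U V 0 n, ent U' V' 0 n, q2, q4, hhx0, hhy0, half]
    · exfalso
      rcases hij with h | h
      · exact absurd h (by simp [Fin.ext_iff])
      · exact h.2.1 ⟨rfl, by simp⟩
  · rcases tri j with rfl | ⟨n, rfl⟩ | rfl
    · simp only [g10, g20, g1m, g2m, star_smul, hstar, smul_mul_assoc, ← Finset.smul_sum]
      rw [ent V U m 0, ent V' U' m 0, q2', q4', hxh0, hyh0, half]
    · simp only [g1m, g2m, star_smul, hstar, smul_mul_assoc, mul_smul_comm, ← Finset.smul_sum]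
      rw [ent V V m n, ent V' V' m n, q3, q5, hxx, hyy, smul_smul, smul_smul]
      norm_num
      exact half _
    · simp only [g1l, g2l, g1m, g2m, star_smul, hstar, smul_mul_assoc, mul_neg, ← Finset.smul_sum,
        Finset.sum_neg_distrib]
      rw [ent V U m 1, ent V' U' m 1, q2', q4', hxh1, hyh1, smul_neg, neg_neg, half]
  · rcases tri j with rfl | ⟨n, rfl⟩ | rfl
    · exfalso
      rcases hij with h | h
      · exact absurd h (by simp [Fin.ext_iff])
      · exact h.2.2 ⟨rfl, by simp⟩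
    · simp only [g1l, g2l, g1m, g2m, mul_smul_comm, ← Finset.smul_sum, star_neg, neg_mul, smul_neg,
        Finset.sum_neg_distrib]
      rw [ent U V 1 n, ent U' V' 1 n, q2, q4, hhx1, hhy1, smul_neg, neg_neg, half]
    · simp only [g1l, g2l, star_neg, neg_mul, mul_neg, neg_neg]
      rw [ent U U 1 1, ent U' U' 1 1, ← Matrix.add_apply, q1, hhh1]

end NonUnital

end Pool.Agent.MP_a554a0
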