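import Pool.Agent.Lib.MP_a554a0_an.Defs

set_option autoImplicit false

open Matrix

namespace Pool.Agent.MP_a554a0

section NonUnital

variable {A : Type*} [NonUnitalCStarAlgebra A] [PartialOrder A] [StarOrderedRing A]

lemma nonneg_iff_star_mul (b : A) : 0 ≤ b ↔ ∃ c, b = star c * c :=
  CStarAlgebra.nonneg_iff_eq_star_mul_self

lemma mpos_iff {ι : Type*} [Fintype ι] [DecidableEq ι] (X : Matrix ι ι A) :
    MPos X ↔ 0 ≤ (CStarMatrix.ofMatrix X : CStarMatrix ι ι A) := by
  rw [nonneg_iff_star_mul (A := CStarMatrix ι ι A)]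
  constructor
  · rintro ⟨Y, hY⟩
    exact ⟨CStarMatrix.ofMatrix Y, hY⟩
  · rintro ⟨Y, hY⟩
    exact ⟨CStarMatrix.ofMatrix.symm Y, hY⟩

lemma MPos.add {ι : Type*} [Fintype ι] {X Y : Matrix ι ι A} (hX : MPos X) (hY : MPos Y) :
    MPos (X + Y) := by
  classical
  rw [mpos_iff] at *
  exact add_nonneg hX hY

omit [PartialOrder A] [StarOrderedRing A] in
lemma MPos.zero {ι : Type*} [Fintype ι] : MPos (0 : Matrix ι ι A) := ⟨0, by simp⟩

lemma MPos.sum {ι κ : Type*} [Fintype ι] (s : Finset κ) {X : κ → Matrix ι ι A}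
    (hX : ∀ k ∈ s, MPos (X k)) : MPos (∑ k ∈ s, X k) := by
  classical
  induction s using Finset.induction_on with
  | empty => simpa using MPos.zero
  | insert a s ha ih =>
    rw [Finset.sum_insert ha]
    exact (hX a (Finset.mem_insert_self a s)).add (ih fun k hk => hX k (Finset.mem_insert_of_mem hk))

/-- Gram matrices of rectangular matrices are positive -/
lemma gram {m n : Type*} [Fintype m] [Fintype n] (Y : Matrix m n A) : MPos (Yᴴ * Y) := by
  classical
  rcases isEmpty_or_nonempty n with hn | ⟨⟨j₀⟩⟩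
  · exact ⟨0, by ext i; exact (hn.false i).elim⟩
  · have h : Yᴴ * Y = ∑ i, (Matrix.of fun k j => if k = j₀ then Y i j else 0 : Matrix n n A)ᴴ
        * (Matrix.of fun k j => if k = j₀ then Y i j else 0 : Matrix n n A) := by
      ext a b
      rw [Matrix.sum_apply, Matrix.mul_apply]
      refine Finset.sum_congr rfl fun i _ => ?_
      rw [Matrix.mul_apply]
      rw [Finset.sum_eq_single j₀]
      · simp [Matrix.conjTranspose_apply]
      · intro k _ hk
        simp [Matrix.conjTranspose_apply, hk]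
      · intro h; exact absurd (Finset.mem_univ _) h
    rw [h]
    exact MPos.sum _ fun i _ => ⟨_, rfl⟩

lemma MPos.conj {m n : Type*} [Fintype m] [Fintype n] {X : Matrix m m A} (hX : MPos X)
    (C : Matrix m n A) : MPos (Cᴴ * X * C) := by
  obtain ⟨Y, rfl⟩ := hX
  have : Cᴴ * (Yᴴ * Y) * C = (Y * C)ᴴ * (Y * C) := by
    rw [Matrix.conjTranspose_mul]
    simp only [Matrix.mul_assoc]
  rw [this]
  exact gram _

lemma MPos.submatrix {m n : Type*} [Fintype m] [Fintype n] {X : Matrix m m A} (hX : MPos X)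
    (f : n → m) : MPos (X.submatrix f f) := by
  obtain ⟨Y, rfl⟩ := hX
  have : (Yᴴ * Y).submatrix f f = (Y.submatrix id f)ᴴ * (Y.submatrix id f) := by
    ext i j
    simp [Matrix.mul_apply]
  rw [this]
  exact gram _

omit [PartialOrder A] [StarOrderedRing A] in
lemma MPos.isHermitian {m : Type*} [Fintype m] {X : Matrix m m A} (hX : MPos X) : Xᴴ = X := by
  obtain ⟨Y, rfl⟩ := hX
  rw [Matrix.conjTranspose_mul, Matrix.conjTranspose_conjTranspose]

/-- positivity can be checked up to reindexing -/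
lemma mpos_submatrix_equiv {m n : Type*} [Fintype m] [Fintype n] {X : Matrix m m A} (f : n ≃ m) :
    MPos (X.submatrix f f) ↔ MPos X := by
  constructor
  · intro h
    have := h.submatrix f.symm
    simpa [Matrix.submatrix_submatrix] using this
  · intro h
    exact h.submatrix f

/-- extension by zero along an injection -/
lemma MPos.extend {m n : Type*} [Fintype m] [Fintype n] [DecidableEq n] {X : Matrix m m A} (hX : MPos X)
    {f : m → n} (hf : Function.Injective f) {Z : Matrix n n A} (h1 : ∀ i j, Z (f i) (f j) = X i j)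
    (h2 : ∀ k l, (∀ i, f i ≠ k) ∨ (∀ i, f i ≠ l) → Z k l = 0) : MPos Z := by
  classical
  obtain ⟨Y, rfl⟩ := hX
  set W : Matrix m n A := Matrix.of fun i k => ∑ j, if f j = k then Y i j else 0 with hW
  have hWf : ∀ i j, W i (f j) = Y i j := by
    intro i j
    simp only [hW, Matrix.of_apply]
    rw [Finset.sum_eq_single j]
    · simp
    · intro k _ hk
      rw [if_neg (fun h => hk (hf h))]
    · intro h; exact absurd (Finset.mem_univ _) h
  have hW0 : ∀ i k, (∀ j, f j ≠ k) → W i k = 0 := by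
    intro i k hk
    simp only [hW, Matrix.of_apply]
    exact Finset.sum_eq_zero fun j _ => by rw [if_neg (hk j)]
  have : Z = Wᴴ * W := by
    ext k l
    rw [Matrix.mul_apply]
    by_cases hk : ∃ i, f i = k
    · obtain ⟨i, rfl⟩ := hk
      by_cases hl : ∃ j, f j = l
      · obtain ⟨j, rfl⟩ := hl
        rw [h1, Matrix.mul_apply]
        refine Finset.sum_congr rfl fun a _ => ?_
        rw [Matrix.conjTranspose_apply, Matrix.conjTranspose_apply, hWf, hWf]
      · rw [h2 _ _ (Or.inr fun j h => hl ⟨j, h⟩)]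
        symm
        apply Finset.sum_eq_zero
        intro a _
        rw [hW0 a l (fun j h => hl ⟨j, h⟩), mul_zero]
    · rw [h2 _ _ (Or.inl fun j h => hk ⟨j, h⟩)]
      symm
      apply Finset.sum_eq_zero
      intro a _
      rw [Matrix.conjTranspose_apply, hW0 a k (fun j h => hk ⟨j, h⟩), star_zero, zero_mul]
  rw [this]
  exact gram _

/-- rectangular version of `C* C = 0 → C = 0` -/
lemma eq_zero_of_gram {m n : Type*} [Fintype m] [Fintype n] {Y : Matrix m n A} (h : Yᴴ * Y = 0) : Y = 0 := by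
  ext i j
  have h1 : ∑ k, star (Y k j) * Y k j = 0 := by
    have := congrFun (congrFun h j) j
    simpa [Matrix.mul_apply] using this
  have h2 : ∀ k ∈ Finset.univ, 0 ≤ star (Y k j) * Y k j := fun k _ => star_mul_self_nonneg _
  have h3 := (Finset.sum_eq_zero_iff_of_nonneg h2).1 h1 i (Finset.mem_univ i)
  exact (CStarRing.star_mul_self_eq_zero_iff _).1 h3

/-- if `X ≥ 0` and `C* X C = 0` then `X C = 0` -/
lemma MPos.mul_eq_zero {m n : Type*} [Fintype m] [Fintype n] {X : Matrix m m A} (hX : MPos X)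
    {C : Matrix m n A} (h : Cᴴ * X * C = 0) : X * C = 0 := by
  obtain ⟨Y, rfl⟩ := hX
  have : Cᴴ * (Yᴴ * Y) * C = (Y * C)ᴴ * (Y * C) := by
    rw [Matrix.conjTranspose_mul]
    simp only [Matrix.mul_assoc]
  rw [this] at h
  rw [Matrix.mul_assoc, eq_zero_of_gram h, Matrix.mul_zero]

end NonUnital

end Pool.Agent.MP_a554a0
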