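import Pool.Agent.Lib.MP_a554a0_an.Local

set_option autoImplicit false

open Matrix

namespace Pool.Agent.MP_a554a0

section NonUnital

variable {A : Type*} [NonUnitalCStarAlgebra A] [PartialOrder A] [StarOrderedRing A]

/-- pad a rectangular matrix with zero columns -/
def pad {σ α τ : Type*} [Fintype α] [DecidableEq τ] (e : τ ≃ σ) (f : α → τ) (W : Matrix σ α A) :
    Matrix τ τ A :=
  Matrix.of fun i j => ∑ a, if f a = j then W (e i) a else 0

omit [PartialOrder A] [StarOrderedRing A] in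
lemma pad_mul {σ α β τ : Type*} [Fintype σ] [Fintype α] [Fintype β] [Fintype τ] [DecidableEq τ]
    (e : τ ≃ σ) (f : α → τ) (g : β → τ) (W : Matrix σ α A) (W' : Matrix σ β A) (i j : τ) :
    ((pad e f W)ᴴ * pad e g W') i j
      = ∑ a, ∑ b, if f a = i ∧ g b = j then (Wᴴ * W') a b else 0 := by
  rw [Matrix.mul_apply]
  have h1 : ∀ k, (pad e f W)ᴴ i k * pad e g W' k j
      = ∑ a, ∑ b, if f a = i ∧ g b = j then star (W (e k) a) * W' (e k) b else 0 := by
    intro k
    simp only [pad, Matrix.conjTranspose_apply, Matrix.of_apply, star_sum]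
    rw [Finset.sum_mul_sum]
    refine Finset.sum_congr rfl fun a _ => Finset.sum_congr rfl fun b _ => ?_
    by_cases ha : f a = i <;> by_cases hb : g b = j <;> simp [ha, hb]
  simp only [h1]
  rw [Finset.sum_comm]
  refine Finset.sum_congr rfl fun a _ => ?_
  rw [Finset.sum_comm]
  refine Finset.sum_congr rfl fun b _ => ?_
  split_ifs with h
  · rw [Matrix.mul_apply]
    exact Equiv.sum_comp e (fun s => star (W s a) * W' s b)
  · simp

omit [PartialOrder A] [StarOrderedRing A] in
lemma pad_mul_apply {σ α β τ : Type*} [Fintype σ] [Fintype α] [Fintype β] [Fintype τ] [DecidableEq τ]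
    (e : τ ≃ σ) {f : α → τ} {g : β → τ} (hf : Function.Injective f) (hg : Function.Injective g)
    (W : Matrix σ α A) (W' : Matrix σ β A) (a : α) (b : β) :
    ((pad e f W)ᴴ * pad e g W') (f a) (g b) = (Wᴴ * W') a b := by
  rw [pad_mul, Finset.sum_eq_single a, Finset.sum_eq_single b]
  · rw [if_pos ⟨rfl, rfl⟩]
  · intro b' _ hb'
    rw [if_neg (fun h => hb' (hg h.2))]
  · intro h; exact absurd (Finset.mem_univ _) h
  · intro a' _ ha'
    apply Finset.sum_eq_zero
    intro b' _
    rw [if_neg (fun h => ha' (hf h.1))]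
  · intro h; exact absurd (Finset.mem_univ _) h

omit [PartialOrder A] [StarOrderedRing A] in
lemma key_sub {ρ τ α β : Type*} [Fintype ρ] (f : α → τ) (g : β → τ) (P Q : Matrix ρ τ A) (a : α) (b : β) :
    ((P.submatrix id f)ᴴ * Q.submatrix id g) a b = (Pᴴ * Q) (f a) (g b) := rfl

omit [PartialOrder A] [StarOrderedRing A] in
/-- the local SAW* condition for rectangular matrices -/
lemma local_rect {M : ℕ} (hL : IsLocalSAWStar (Matrix (Fin M) (Fin M) A))
    {σ α β γ : Type*} [Fintype σ] [Fintype α] [Fintype β] [Fintype γ]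
    (hσ : Fintype.card σ = M) (hα : Fintype.card α ≤ M) (hβ : Fintype.card β ≤ M)
    (hγ : Fintype.card γ ≤ M) (h : Matrix σ α A) (x : Matrix σ β A) (y : Matrix σ γ A) (hxy : xᴴ * y = 0) :
    ∃ (U U' : Matrix (Fin 2 × Fin M) α A) (V : Matrix (Fin 2 × Fin M) β A)
      (V' : Matrix (Fin 2 × Fin M) γ A), Uᴴ * U + U'ᴴ * U' = hᴴ * h ∧ Uᴴ * V = hᴴ * x ∧ Vᴴ * V = xᴴ * x ∧
        U'ᴴ * V' = hᴴ * y ∧ V'ᴴ * V' = yᴴ * y := by
  classical
  have e : Fin M ≃ σ := (Fintype.equivFinOfCardEq hσ).symm
  obtain ⟨f⟩ : Nonempty (α ↪ Fin M) := Function.Embedding.nonempty_of_card_le (by simpa using hα)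
  obtain ⟨g⟩ : Nonempty (β ↪ Fin M) := Function.Embedding.nonempty_of_card_le (by simpa using hβ)
  obtain ⟨k⟩ : Nonempty (γ ↪ Fin M) := Function.Embedding.nonempty_of_card_le (by simpa using hγ)
  have hxy' : star (pad e g x) * pad e k y = 0 := by
    rw [Matrix.star_eq_conjTranspose]
    ext i j
    rw [pad_mul, hxy]
    simp
  obtain ⟨E, h1, h2⟩ := hL (pad e f h) (pad e g x) (pad e k y) hxy'
  obtain ⟨U, V, u1, u2, u3⟩ := exists_block h1
  obtain ⟨U', V', v1, v2, v3⟩ := exists_block h2
  refine ⟨U.submatrix id f, U'.submatrix id f, V.submatrix id g, V'.submatrix id k, ?_, ?_, ?_, ?_, ?_⟩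
  · ext a b
    rw [Matrix.add_apply, key_sub, key_sub, u1, v1, Matrix.sub_apply, Matrix.star_eq_conjTranspose,
      pad_mul_apply e f.injective f.injective]
    abel
  · ext a b
    rw [key_sub, u2, Matrix.star_eq_conjTranspose, pad_mul_apply e f.injective g.injective]
  · ext a b
    rw [key_sub, u3, Matrix.star_eq_conjTranspose, pad_mul_apply e g.injective g.injective]
  · ext a b
    rw [key_sub, v2, Matrix.star_eq_conjTranspose, pad_mul_apply e f.injective k.injective]
  · ext a b
    rw [key_sub, v3, Matrix.star_eq_conjTranspose, pad_mul_apply e k.injective k.injective]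

end NonUnital

end Pool.Agent.MP_a554a0
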