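import Pool.Agent.Lib.MP_a554a0_an.Contr

set_option autoImplicit false

open Matrix

namespace Pool.Agent.MP_a554a0

section Unital

variable {A : Type*} [CStarAlgebra A] [PartialOrder A] [StarOrderedRing A]

/-- isometric factorisation in `M_κ(A)` -/
def HasIso (A : Type*) [CStarAlgebra A] (κ : Type*) [Fintype κ] [DecidableEq κ] : Prop :=
  ∀ a b : Matrix κ κ A, aᴴ * a = bᴴ * b → ∃ x : Matrix κ κ A, Contr x ∧ a = x * b

/-- common factorisation of two matrices with equal Gram matrices -/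
def CF (A : Type*) [CStarAlgebra A] (κ : Type) [Fintype κ] [DecidableEq κ] : Prop :=
  ∀ (ρ : Type) [Fintype ρ] [DecidableEq ρ] (R S : Matrix ρ κ A), Rᴴ * R = Sᴴ * S →
    ∃ (L : Matrix κ κ A) (Y Y' : Matrix ρ κ A), Contr Y ∧ Contr Y' ∧
      R = Y * L ∧ S = Y' * L ∧ Lᴴ * L = Rᴴ * R

/-- a contraction which is isometric on `L` -/
lemma Contr.isom {m n l : Type*} [Fintype m] [Fintype n] [Fintype l] [DecidableEq n]
    {Y : Matrix m n A} (hY : Contr Y) {L : Matrix n l A} (h : (Y * L)ᴴ * (Y * L) = Lᴴ * L) :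
    Yᴴ * (Y * L) = L := by
  have h1 : Lᴴ * (1 - Yᴴ * Y) * L = 0 := by
    rw [Matrix.mul_sub, Matrix.sub_mul, Matrix.mul_one, ← h, Matrix.conjTranspose_mul]
    simp only [Matrix.mul_assoc]
    abel
  have h2 := MPos.mul_eq_zero hY h1
  rw [Matrix.sub_mul, Matrix.one_mul, sub_eq_zero] at h2
  rw [← Matrix.mul_assoc]
  exact h2.symm

lemma HasIso_of_CF {κ : Type} [Fintype κ] [DecidableEq κ] (h : CF A κ) : HasIso A κ := by
  intro a b hab
  obtain ⟨L, Y, Y', hY, hY', hR, hS, hL⟩ := h κ b a hab.symm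
  refine ⟨Y' * Yᴴ, hY'.mul hY.conjT, ?_⟩
  have h1 : Yᴴ * (Y * L) = L := hY.isom (by rw [← hR, hL])
  rw [Matrix.mul_assoc, hR, h1, ← hS]

lemma canc {κ γ : Type*} [Fintype κ] [DecidableEq κ] [Fintype γ] (z : Matrix κ κ A) (w : Matrix κ γ A)
    (hw : z * (w * wᴴ) = 0) : z * w = 0 := by
  have h1 : ((z * w)ᴴ)ᴴ * (z * w)ᴴ = 0 := by
    rw [Matrix.conjTranspose_conjTranspose, Matrix.conjTranspose_mul, ← Matrix.mul_assoc,
      Matrix.mul_assoc z, hw, Matrix.zero_mul]
  have h2 := eq_zero_of_gram h1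
  have := congrArg Matrix.conjTranspose h2
  simpa using this

/-- the SAW* type separation -/
lemma saw_of_iso {κ : Type*} [Fintype κ] [DecidableEq κ] (h : HasIso A κ) {α β : Type*} [Fintype α]
    [Fintype β] (v : Matrix κ α A) (v' : Matrix κ β A) (hv : vᴴ * v' = 0) :
    ∃ e : Matrix κ κ A, MPos e ∧ MPos (1 - e) ∧ e * v = v ∧ e * v' = 0 := by
  classical
  have hv' : v'ᴴ * v = 0 := by
    have := congrArg Matrix.conjTranspose hv
    simpa using this
  set x : Matrix κ κ A := v * vᴴ with hx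
  set y : Matrix κ κ A := v' * v'ᴴ with hy
  have hxs : xᴴ = x := by rw [hx, Matrix.conjTranspose_mul, Matrix.conjTranspose_conjTranspose]
  have hys : yᴴ = y := by rw [hy, Matrix.conjTranspose_mul, Matrix.conjTranspose_conjTranspose]
  have hxy : x * y = 0 := by
    rw [hx, hy, Matrix.mul_assoc, ← Matrix.mul_assoc vᴴ, hv, Matrix.zero_mul, Matrix.mul_zero]
  have hyx : y * x = 0 := by
    rw [hx, hy, Matrix.mul_assoc, ← Matrix.mul_assoc v'ᴴ, hv', Matrix.zero_mul, Matrix.mul_zero]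
  obtain ⟨u, hu, hux⟩ := h (x - y) (x + y) (by
    rw [Matrix.conjTranspose_sub, Matrix.conjTranspose_add, hxs, hys, Matrix.sub_mul, Matrix.mul_sub,
      Matrix.mul_sub, Matrix.add_mul, Matrix.mul_add, Matrix.mul_add, hxy, hyx]
    abel)
  -- `u x x = x x`, `u y y = - y y`
  have e1 : (1 - u) * (x * x) = 0 := by
    have h1 : (x - y) * x = u * (x + y) * x := by rw [hux]
    rw [Matrix.sub_mul, hyx, sub_zero, Matrix.mul_assoc u, Matrix.add_mul, hyx, add_zero] at h1
    rw [Matrix.sub_mul, Matrix.one_mul, ← h1, sub_self]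
  have e2 : (1 + u) * (y * y) = 0 := by
    have h1 : (x - y) * y = u * (x + y) * y := by rw [hux]
    rw [Matrix.sub_mul, hxy, zero_sub, Matrix.mul_assoc u, Matrix.add_mul, hxy, zero_add] at h1
    rw [Matrix.add_mul, Matrix.one_mul, ← h1, add_neg_cancel]
  have f1 : u * v = v := by
    have h1 : (1 - u) * x = 0 := canc _ x (by rw [hxs]; exact e1)
    have h2 : (1 - u) * v = 0 := canc _ v h1
    rw [Matrix.sub_mul, Matrix.one_mul, sub_eq_zero] at h2
    exact h2.symm
  have f2 : u * v' = - v' := by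
    have h1 : (1 + u) * y = 0 := canc _ y (by rw [hys]; exact e2)
    have h2 : (1 + u) * v' = 0 := canc _ v' h1
    rw [Matrix.add_mul, Matrix.one_mul] at h2
    exact (neg_eq_of_add_eq_zero_right h2).symm
  have f3 : uᴴ * v = v := by
    have := hu.isom (L := v) (by rw [f1])
    rwa [f1] at this
  have f4 : uᴴ * v' = - v' := by
    have := hu.isom (L := v') (by rw [f2, Matrix.conjTranspose_neg, Matrix.neg_mul, Matrix.mul_neg, neg_neg])
    rw [f2, Matrix.mul_neg] at this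
    rw [← this, neg_neg, this]
  have hstar : star (1 / 2 : ℂ) = 1 / 2 := by simp
  have quarter : ∀ X : Matrix κ κ A, MPos X → MPos ((1 / 4 : ℂ) • X) := by
    rintro X ⟨Y, rfl⟩
    refine ⟨(1 / 2 : ℂ) • Y, ?_⟩
    rw [Matrix.conjTranspose_smul, hstar, Matrix.smul_mul, Matrix.mul_smul, smul_smul]
    norm_num
  have g1 : (1 + u)ᴴ * (1 + u) + (1 - uᴴ * u) = 1 + 1 + u + uᴴ := by
    rw [Matrix.conjTranspose_add, Matrix.conjTranspose_one, Matrix.add_mul, Matrix.mul_add, Matrix.mul_add,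
      Matrix.one_mul, Matrix.mul_one, Matrix.one_mul]
    abel
  have g2 : (1 - u)ᴴ * (1 - u) + (1 - uᴴ * u) = 1 + 1 - u - uᴴ := by
    rw [Matrix.conjTranspose_sub, Matrix.conjTranspose_one, Matrix.sub_mul, Matrix.mul_sub, Matrix.mul_sub,
      Matrix.one_mul, Matrix.mul_one, Matrix.one_mul]
    abel
  refine ⟨(1 / 4 : ℂ) • (1 + 1 + u + uᴴ), ?_, ?_, ?_, ?_⟩
  · rw [← g1]
    exact quarter _ ((gram _).add hu)
  · have : 1 - (1 / 4 : ℂ) • (1 + 1 + u + uᴴ) = (1 / 4 : ℂ) • (1 + 1 - u - uᴴ) := by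
      have h4 : (1 : Matrix κ κ A) = (1 / 4 : ℂ) • (1 + 1 + 1 + 1) := by
        rw [show (1 + 1 + 1 + 1 : Matrix κ κ A) = (4 : ℂ) • 1 by
          rw [show (4 : ℂ) = 1 + 1 + 1 + 1 by norm_num, add_smul, add_smul, add_smul, one_smul], smul_smul]
        norm_num
      nth_rewrite 1 [h4]
      rw [← smul_sub]
      congr 1
      abel
    rw [this, ← g2]
    exact quarter _ ((gram _).add hu)
  · rw [Matrix.smul_mul, Matrix.add_mul, Matrix.add_mul, Matrix.add_mul, Matrix.one_mul, f1, f3]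
    rw [show v + v + v + v = (4 : ℂ) • v by
          rw [show (4 : ℂ) = 1 + 1 + 1 + 1 by norm_num, add_smul, add_smul, add_smul, one_smul], smul_smul]
    norm_num
  · rw [Matrix.smul_mul, Matrix.add_mul, Matrix.add_mul, Matrix.add_mul, Matrix.one_mul, f2, f4]
    rw [show v' + v' + -v' + -v' = 0 by abel, smul_zero]

end Unital

end Pool.Agent.MP_a554a0
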