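import Pool.Agent.Lib.MP_a554a0_an.Equiv

set_option autoImplicit false

open Matrix

namespace Pool.Agent.MP_a554a0

lemma truncate {B : Type*} [CStarAlgebra B] [PartialOrder B] [StarOrderedRing B] (e : B) (he : 0 ≤ e) :
    ∃ f : B, 0 ≤ f ∧ 0 ≤ 1 - f ∧ (∀ v, e * v = v → f * v = v) ∧ (∀ v, e * v = 0 → f * v = 0) := by
  have hs : star e = e := (IsSelfAdjoint.of_nonneg he).star_eq
  have hee : 0 ≤ e * e := by
    have := star_mul_self_nonneg e
    rwa [hs] at this
  have hunit : IsUnit (1 + e * e) := by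
    apply CStarAlgebra.isUnit_of_le (1 : B)
    exact le_add_of_nonneg_right hee
  obtain ⟨w, hw⟩ := hunit
  set i : B := ↑(w⁻¹) with hi
  have h1 : i * (1 + e * e) = 1 := by rw [← hw]; exact w.inv_mul
  have h2 : (1 + e * e) * i = 1 := by rw [← hw]; exact w.mul_inv
  have hcomm : i * e = e * i := by
    calc i * e = i * e * ((1 + e * e) * i) := by rw [h2, mul_one]
      _ = i * (1 + e * e) * e * i := by noncomm_ring
      _ = e * i := by rw [h1, one_mul]
  have his : star i = i := by
    have h3 : (1 + e * e) * star i = 1 := by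
      have := congrArg star h1
      rwa [star_mul, star_add, star_mul, star_one, hs] at this
    calc star i = i * (1 + e * e) * star i := by rw [h1, one_mul]
      _ = i := by rw [mul_assoc, h3, mul_one]
  refine ⟨i * (e + e), ?_, ?_, ?_, ?_⟩
  · have h4 : 0 ≤ e + e + (e * e * e + e * e * e) := by
      have h5 : 0 ≤ e * e * e := by
        have := star_left_conjugate_nonneg he e
        rwa [hs] at this
      exact add_nonneg (add_nonneg he he) (add_nonneg h5 h5)
    have h6 : i * (e + e) = star i * (e + e + (e * e * e + e * e * e)) * i := by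
      rw [his]
      calc i * (e + e) = i * (e + e) * ((1 + e * e) * i) := by rw [h2, mul_one]
        _ = i * (e + e + (e * e * e + e * e * e)) * i := by noncomm_ring
    rw [h6]
    exact star_left_conjugate_nonneg h4 i
  · have h4 : 0 ≤ star (1 - e) * (1 - e) + star (e * (1 - e)) * (e * (1 - e)) :=
      add_nonneg (star_mul_self_nonneg _) (star_mul_self_nonneg _)
    have h6 : 1 - i * (e + e) = star i * (star (1 - e) * (1 - e) + star (e * (1 - e)) * (e * (1 - e))) * i := by
      rw [his, star_mul, star_sub, star_one, hs]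
      calc 1 - i * (e + e) = i * (1 + e * e) * ((1 + e * e) * i) - i * (e + e) * ((1 + e * e) * i) := by
            rw [h1, h2, mul_one, mul_one]
        _ = i * ((1 - e) * (1 - e) + (1 - e) * e * (e * (1 - e))) * i := by noncomm_ring
    rw [h6]
    exact star_left_conjugate_nonneg h4 i
  · intro v hv
    have h3 : (1 + e * e) * v = v + v := by
      rw [add_mul, one_mul, mul_assoc, hv, hv]
    have h4 : i * (e + e) * v = i * (v + v) := by
      rw [mul_assoc, add_mul, hv]
    rw [h4, ← h3, ← mul_assoc, h1, one_mul]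
  · intro v hv
    rw [mul_assoc, add_mul, hv, add_zero, mul_zero]

section Unital

variable {A : Type*} [CStarAlgebra A] [PartialOrder A] [StarOrderedRing A]

lemma truncate_matrix {m : ℕ} {e : Matrix (Fin m) (Fin m) A} (he : MPos e) :
    ∃ f : Matrix (Fin m) (Fin m) A, MPos f ∧ MPos (1 - f) ∧ (∀ v, e * v = v → f * v = v) ∧
      (∀ v, e * v = 0 → f * v = 0) := by
  rw [mpos_iff] at he
  obtain ⟨f, h1, h2, h3, h4⟩ := truncate (B := CStarMatrix (Fin m) (Fin m) A) _ he
  refine ⟨CStarMatrix.ofMatrix.symm f, ?_, ?_, fun v hv => h3 (CStarMatrix.ofMatrix v) hv,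
    fun v hv => h4 (CStarMatrix.ofMatrix v) hv⟩
  · rw [mpos_iff]; exact h1
  · rw [mpos_iff]; exact h2

theorem douglas_of_saw3 (h : IsSAWStar (Matrix (Fin 3) (Fin 3) A)) : HasDouglas A := by
  rintro a b ⟨c, hc⟩
  set V : Matrix (Fin 3) (Fin 3) A := !![b, 0, 0; a, 0, 0; c, 0, 0] with hV
  set V' : Matrix (Fin 3) (Fin 3) A := !![b, 0, 0; -a, 0, 0; -c, 0, 0] with hV'
  have hVV : Vᴴ * V' = 0 := by
    ext i j
    fin_cases i <;> fin_cases j <;> simp [hV, hV', Matrix.mul_apply, Fin.sum_univ_three, ← hc]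
    abel
  have hxy : (V * Vᴴ) * (V' * V'ᴴ) = 0 := by
    rw [Matrix.mul_assoc, ← Matrix.mul_assoc Vᴴ, hVV, Matrix.zero_mul, Matrix.mul_zero]
  obtain ⟨e, he, hex, hey⟩ := h (V * Vᴴ) (V' * V'ᴴ)
    ⟨Vᴴ, by rw [Matrix.star_eq_conjTranspose, Matrix.conjTranspose_conjTranspose]⟩
    ⟨V'ᴴ, by rw [Matrix.star_eq_conjTranspose, Matrix.conjTranspose_conjTranspose]⟩ hxy
  obtain ⟨f, hf, hf1, hf2, hf3⟩ := truncate_matrix (e := e) he
  have f1 : f * V = V := by
    have h1 : (1 - f) * V = 0 := canc _ V (by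
      rw [Matrix.sub_mul, Matrix.one_mul, hf2 _ hex, sub_self])
    rw [Matrix.sub_mul, Matrix.one_mul, sub_eq_zero] at h1
    exact h1.symm
  have f2 : f * V' = 0 := canc _ V' (hf3 _ hey)
  have hfs : fᴴ = f := hf.isHermitian
  have hs : Contr (f + f - 1) := by
    have g1 := (hf1.conj f).add (hf.conj (1 - f))
    have e1 : fᴴ * (1 - f) * f + (1 - f)ᴴ * f * (1 - f) = f * (1 - f) := by
      rw [Matrix.conjTranspose_sub, Matrix.conjTranspose_one, hfs]
      noncomm_ring
    rw [e1] at g1
    have g2 := (g1.add g1).add (g1.add g1)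
    have e2 : f * (1 - f) + f * (1 - f) + (f * (1 - f) + f * (1 - f))
        = 1 - (f + f - 1)ᴴ * (f + f - 1) := by
      rw [Matrix.conjTranspose_sub, Matrix.conjTranspose_add, Matrix.conjTranspose_one, hfs]
      noncomm_ring
    unfold Contr
    rwa [e2] at g2
  refine ⟨(f + f - 1) 1 0, hs.entry 1 0, ?_⟩
  have h3 : f * (V + V') = V := by rw [Matrix.mul_add, f1, f2, add_zero]
  have h4 := congrFun (congrFun h3 1) 0
  simp only [Matrix.mul_apply, Fin.sum_univ_three, Matrix.add_apply, hV, hV'] at h4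
  simp only [Matrix.sub_apply, Matrix.add_apply]
  simp at h4
  simp
  rw [add_mul, ← mul_add]
  exact h4.symm

end Unital

end Pool.Agent.MP_a554a0
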